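import Pool.Agent.W2helper33.BD.Out

/-!
# Relations of bounded degree between the periods determine the smallest subtorsor, for arbitrary perfect groups

Let `K` be a field of algebraic numbers and let `c` be the matrix of the period isomorphism of a de Rham-Betti object of
rank `n` (in bases of the de Rham and Betti spaces). Grothendieck's conjecture predicts in particular that the smallest
`K`-subtorsor `Ω_M` of the space of isomorphisms which contains `c` is the torsor of motivated periods `Ω^And_M`; one knows
`Ω_M ⊆ Ω^dRB_M ⊆ Ω^And_M`, and all three are `K`-subtorsors in the sense of `IsSubtorsor`. A proper subtorsor may be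
defined by relations of arbitrarily high degree, for example by tensors in arbitrary tensor spaces. The theorem says that
this does not happen for perfect groups:

For every rank `n` there is a number `d` such that for all fields `K` of algebraic numbers, all perfect complex Lie
algebras `𝔤` of matrices and all period matrices `c`: if all relations of degree at most `d` over `K` between the periods
stay true on the translates `exp(X) c`, `X ∈ 𝔤`, then the group `G` generated by the exponentials of `𝔤` acts on *every*
`K`-subtorsor through `c`. In particular `G` is contained in the group of the de Rham-Betti realisation, and all de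
Rham-Betti classes in all tensor spaces are invariant under `G`. If moreover `det c` is transcendental (for pure motives of
weight different from `0` it is an algebraic multiple of a nonzero power of `2πi` up to a square root), then every
`K`-subtorsor `E` through `c` which is contained in `ℂ^× G c` is the smallest one. So for a motive whose motivated Galois group
is generated by its centre of scalars and the perfect group `G`, the equalities `Ω_M = Ω^dRB_M = Ω^And_M` follow if the
relations of degree at most `d` between the periods are the ones which come from motivated classes.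

The assumption that `𝔤` is perfect cannot be omitted: in rank one, if `c ^ m` is rational for some `m > d`, then there may be
no relations of degree at most `d`, but `x ^ m = c ^ m` defines a finite subtorsor.

Proof (`Pool/Agent/W2helper33/BD`): complex polynomials of degree at most `d` which vanish on a `K`-subtorsor `T` through `c`
vanish on the translates (descent from `ℂ` to `K`). This is applied to three kinds of polynomials. The normaliser `𝔫` of the Lie
algebra `𝔱` of `T` contains `𝔤`, and `exp 𝔤` acts on `𝔫 / 𝔱`. The group of `T` acts on this space through a finite group: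
otherwise a derivation of `ℂ` over `K` would give a new element of `𝔱`. By the theorem of Jordan on finite linear groups
the powers of its elements with a certain exponent commute, where the exponent depends only on `n`. By descent in each of the
two variables this is true for `exp 𝔤`, so that all elements of `exp 𝔤` commute as operators on `𝔫 / 𝔱`. Hence
`[𝔤, 𝔤] = 𝔤` acts trivially on `𝔫 / 𝔱`, that is `[𝔤, 𝔫] ⊆ 𝔱`, and `𝔤 = [𝔤, 𝔤] ⊆ 𝔱`. The scalars are obtained from the
logarithmic derivatives of `c`.

The case of products of symplectic groups is part 1 of `HyperellipticSmallestSubtorsor` (there with a number `d` which does not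
depend on the number of factors); its proof uses the structure of the representation of the symplectic group.
-/

set_option autoImplicit false

namespace Pool.Agent.Results.MP_f11a48_ag.BoundedDegreeCriterion

/-- `T` is (the set of complex points of) a `K`-subtorsor of `GL_n = Iso (M_dR, M_B)`: it is closed under `x y⁻¹ z`, and
it is defined in `GL_n` by polynomials with coefficients in `K`. -/
def IsSubtorsor (K : Subfield ℂ) {n : ℕ} (T : Set (Matrix (Fin n) (Fin n) ℂ)) : Prop :=
  (∀ x ∈ T, ∀ y ∈ T, ∀ z ∈ T, x * y⁻¹ * z ∈ T) ∧ ∃ I : Set (MvPolynomial (Fin n × Fin n) K),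
    ∀ x : Matrix (Fin n) (Fin n) ℂ, x ∈ T ↔
      IsUnit x ∧ ∀ p ∈ I, MvPolynomial.eval (fun b => x b.1 b.2) (MvPolynomial.map (algebraMap K ℂ) p) = 0

/-- `Ω` is the smallest `K`-subtorsor which contains the period matrix `c`. -/
def IsOmega (K : Subfield ℂ) {n : ℕ} (c : Matrix (Fin n) (Fin n) ℂ) (Ω : Set (Matrix (Fin n) (Fin n) ℂ)) : Prop :=
  IsSubtorsor K Ω ∧ c ∈ Ω ∧ ∀ T : Set (Matrix (Fin n) (Fin n) ℂ), IsSubtorsor K T → c ∈ T → Ω ⊆ T

/-- The space `𝔤` of matrices is a perfect Lie algebra: `𝔤 = [𝔤, 𝔤]`. -/
def IsPerfect {n : ℕ} (𝔤 : Submodule ℂ (Matrix (Fin n) (Fin n) ℂ)) : Prop :=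
  𝔤 = Submodule.span ℂ {W | ∃ X ∈ 𝔤, ∃ Y ∈ 𝔤, W = X * Y - Y * X}

/-- The group generated by the exponentials of the elements of `𝔤`. -/
noncomputable def expGroup {n : ℕ} (𝔤 : Submodule ℂ (Matrix (Fin n) (Fin n) ℂ)) :
    Submonoid (Matrix (Fin n) (Fin n) ℂ) :=
  Submonoid.closure {g | ∃ X ∈ 𝔤, g = NormedSpace.exp X}

/-- All polynomial relations of degree at most `d` over `K` between the entries of `c` hold for the entries of the matrices
`exp(X) c`, `X ∈ 𝔤`. -/
def RelationsStable (K : Subfield ℂ) {n : ℕ} (d : ℕ) (𝔤 : Submodule ℂ (Matrix (Fin n) (Fin n) ℂ))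
    (c : Matrix (Fin n) (Fin n) ℂ) : Prop :=
  ∀ P : MvPolynomial (Fin n × Fin n) K, P.totalDegree ≤ d →
    MvPolynomial.eval (fun b => c b.1 b.2) (MvPolynomial.map (algebraMap K ℂ) P) = 0 →
    ∀ X ∈ 𝔤, MvPolynomial.eval (fun b => (NormedSpace.exp X * c) b.1 b.2) (MvPolynomial.map (algebraMap K ℂ) P) = 0

/-- The theorem. -/
theorem result (n : ℕ) : ∃ d : ℕ, ∀ (K : Subfield ℂ) (𝔤 : Submodule ℂ (Matrix (Fin n) (Fin n) ℂ))
    (c : Matrix (Fin n) (Fin n) ℂ), (∀ x ∈ K, IsAlgebraic ℚ x) → IsPerfect 𝔤 → RelationsStable K d 𝔤 c →
    (∀ T : Set (Matrix (Fin n) (Fin n) ℂ), IsSubtorsor K T → c ∈ T → ∀ g ∈ expGroup 𝔤, ∀ x ∈ T, g * x ∈ T) ∧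
    (Transcendental ℚ c.det → ∀ E : Set (Matrix (Fin n) (Fin n) ℂ), IsSubtorsor K E → c ∈ E →
      (∀ x ∈ E, ∃ z : ℂ, ∃ g ∈ expGroup 𝔤, x = z • (g * c)) → IsOmega K c E) := by
  refine ⟨W2helper33.BD.dg (Fin n), fun K 𝔤 c hK hp hrel => ?_⟩
  have hperf : W2helper33.BD.Perf 𝔤 := by
    intro Z hZ
    rw [hp] at hZ
    exact hZ
  have hall : ∀ T : Set (Matrix (Fin n) (Fin n) ℂ), TH127.PT.IsSubtorsor K T → c ∈ T → 𝔤 ≤ W2helper33.OQ.LM T :=
    fun T hT hcT => W2helper33.BD.crit hK hT le_rfl hcT
      (fun X hX => W2helper33.BD.relTo_of_map fun P hPd hP => hrel P hPd hP X hX) hperf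
  refine ⟨fun T hT hcT g hg x hx => ?_, fun hdet E hE hcE hEz => ⟨hE, hcE, fun T hT hcT => ?_⟩⟩
  · have hT' := W2helper33.BD.subtorsor_iff.1 hT
    exact W2helper33.BD.Gp_act hT' (hall T hT' hcT) hg x hx
  · exact W2helper33.BD.omega_le hK hperf hdet hall (W2helper33.BD.subtorsor_iff.1 hE) hcE hEz
      (W2helper33.BD.subtorsor_iff.1 hT) hcT

end Pool.Agent.Results.MP_f11a48_ag.BoundedDegreeCriterion
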