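import Pool.Agent.W2helper4.TS.Cor
import Pool.Agent.W2helper4.TS.Drb
import Pool.Agent.W2helper4.CY.Hyp

/-!
# Torsors of periods of fibres of Calabi–Yau families near a point of maximally unipotent monodromy

Let `V` be a family of motives of rank `n = 2m` over a nonempty Zariski open subset of the projective line over `ℚ`, with
parameter `x`, with a polarisation, of Calabi–Yau type (all Hodge numbers are `1`), with maximally unipotent monodromy at
the rational point `x = 0`; for example the middle cohomology of a family of Calabi–Yau varieties with `h^{n-1} = n`, such as the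
mirror quintic family (`n = 4`). In a symplectic
frame of the canonical extension of the de Rham cohomology over `ℚ` and a symplectic Frobenius basis of multivalued flat
sections the period matrix of `V` is `P(x) x^N`, where `N` is the nilpotent Jordan block and `P` is a matrix of power series over
`ℚ`. It satisfies the conditions in `IsVariation`: `P` is symplectic, `P(x) x^N` is a solution of a linear differential equation
over `ℚ(x)`, and the entries of `P` are G-functions, by the theorem of André. The fibre `M` of `V` at an algebraic point `z` is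
a motive over every number field `K` which contains `z`. In a `K`-basis of `M_dR` and a rational basis of `M_B` its period matrix is
`P(z) z^N C` (rows: `M_dR`, columns: `M_B`), where `C` is a rational structure: the logarithm `2πi C⁻¹ N C` of the local monodromy is
rational, and the polarisation `A` of `M_B` satisfies `C A Cᵀ = (2πi)^w S`, where `w` is the weight. (If the logarithm of the
monodromy is `2πi e N` then one multiplies the bases by powers of `e`.) The matrix `C` depends on the family, it is known in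
few cases (for the quintic it contains `ζ(3)`). The theorem is uniform in all rational structures.

Let `V_1, …, V_r` be such families, of ranks `2 m_i ≥ 4`, such that the algebraic monodromy group of `V_1 ⊕ ⋯ ⊕ V_r` is the product of
the symplectic groups (`MaximalMonodromy`). By Saxl and Seitz and the lemma of Goursat, Kolchin and Ribet this is so if no `V_i` is
a symmetric power of a family of rank two, and no two of them are isomorphic up to a twist. The theorem
`hypergeometric` shows that the hypergeometric families are examples. The mirror quintic family is given by `m = 2` and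
`β = (1/5, 2/5)`, with the conifold point `x = 1`.

We prove: let `D`, `g`, `A₀` be given. For all but finitely many algebraic numbers `ξ` of degree `≤ g` and of height `≤ |ξ|^A₀` with
`|ξ| > R`, and for all number fields `K` of degree `≤ D`, every `K`-subtorsor of `Iso(M_dR, M_B)` which contains the period matrix of
`M = ⨁_a M_a` is stable under the product of the symplectic groups of the `M_a` which are simple over `K`. Here the `M_a` are fibres of the
different families `V_i` at `x = 1 / ξ`, or more generally at the points `1 / (ξ - G u)`, `0 ≤ u ≤ B`, with different pairs of the family and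
the point. **All `M_a` of rank at least six are simple over all `K`, and at most one of all these fibres, of rank four, is not simple over
some number field of degree `≤ D`** (*exceptional*), where `M` is called simple over `K` if there are no `K`-subspaces of `M_dR` and
`M_B ⊗ K` which correspond to each other (so `M` has no subobjects in the category of de Rham–Betti objects with coefficients in
`K`). If no `M_a` is exceptional then the smallest `K`-subtorsor `Ω_M` which contains the period matrix is the torsor of all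
`⨁ X_a` with `X_a A_a X_aᵀ = μ^(w_a) S` for all `a` and some
`μ`, and it is the intersection of the `Ω_α` for all de Rham–Betti classes `α` in all tensor spaces `M^{⊗ l} ⊗ (M^∨)^{⊗ k}` (this is proved
in Lean, see `deRhamBetti`). As `Ω_M ⊆ Ω^dRB_M ⊆ Ω_α`, this means `Ω_M = Ω^dRB_M`. The torsor of all these `⨁ X_a` contains `Ω^And_M`,
since the polarisations and the projections to the summands are motivated. Hence
`Ω_M = Ω^dRB_M = Ω^And_M` for these motives: **two of the three equalities of Grothendieck's conjecture hold for all but finitely many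
fibres of bounded degree near `x = 0`, relative to their height, if the ranks are at least six, and for all these fibres except at
most one of each window `1 / (ξ - G u)`, `0 ≤ u ≤ B`, if rank four occurs.** In particular (part (4)) they hold for the fibres of
the mirror quintic family at `x = 1 / n` for all natural numbers `n < X` with at most `4 X^(1 - 1/E)` exceptions, and at an exceptional fibre
two out of three equalities can only fail if `M` is decomposable or an extension, as a de Rham–Betti object with coefficients in a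
number field of degree `≤ D`.
In particular all de Rham–Betti classes in all tensor spaces
`M^{⊗ a} ⊗ (M^∨)^{⊗ b}` are generated by the polarisations, `G_dRB(M)` is as large as possible, there are no relations from tensors between
`M_a`, `M_b` for `a ≠ b`.

Earlier results in this direction hold for almost all parameters, or they concern relations of bounded degree (see
the starting file `GeneralFamilies` and `BoundedDegreeCriterion`, `MonodromyActsOnPeriodTorsors`, `W2helper4/HJ/OneFibre`), because a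
rational structure which depends on the fibre can create new relations; the equations of a subtorsor can have arbitrarily high
degree, and the constants in `C` are arbitrary numbers.

Proof (`Pool/Agent/W2helper4/TS`). By the theory of G-functions (helper916, W2helper4/CY) all polynomial relations of bounded degree over `ℚ`
between the entries of the matrices `p_a = P_a(z_a)` come from relations between functions, so that they hold on the product of the
symplectic groups. Let `c_a = p_a C_a` be the period matrices, `T` a `K`-subtorsor through `c`, `𝔱` its Lie algebra and `𝔫` the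
normaliser of `𝔱`.
(1) Let `Tan` be the space of all matrices `V` such that `V c` is tangent at `c` to all relations of degree `≤ d` over `K` between the periods,
for a certain `d`. By descent from `ℂ` to `K`, applied to the polynomials of helper33's criterion (they express that the group of `T`
normalises `𝔱` and, by Jordan's theorem, that its elements commute on `𝔫 / 𝔱` up to a power), `Tan` is contained in `𝔫` and its
elements commute on `𝔫 / 𝔱` (`TS/Tan`).
(2) In an ultraproduct of the complex numbers there are derivations which kill all numbers of bounded degree, map `p_a` to `X p_a`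
for a given element `X` of rank one of `𝔰𝔭` and kill the other `p_b`. We do not know what they do with `C_b`, but the
logarithmic derivatives of the `C_b` are in the normaliser `E` of the line of `N` in the similitudes, since the monodromy and the form
are rational, and they all have the eigenvalue `D(2πi) / 2πi` on `N`. Therefore `Tan` contains an element with the components
`X + p_a Y_a p_a⁻¹` and `p_b Y_b p_b⁻¹`, with `Y_b ∈ E` with the same eigenvalue (`TS/Ult`, `TS/Ult2`).
(3) `E ∩ 𝔰𝔭` has dimension `m + 1`, and its double commutators are zero. Let `𝔞` be the subalgebra of `𝔰𝔭_{2m}` which normalises the component `a` of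
`𝔱`. All elements of rank one are in the sum of `𝔞` and a conjugate of `E`. It follows that `𝔞 = 𝔰𝔭_{2m}` if `m ≥ 3` (`TS/Lie3`), and for
`m = 2` that `𝔞 = 𝔰𝔭_4` or `𝔞` is the stabiliser of a line or of a Lagrangian plane, and a complement of the conjugate of `E ∩ 𝔰𝔭`
(`TS/Lie4`, `TS/Rad`); in the second case this line or plane gives subspaces over `K` of `M_B ⊗ K` and `M_dR`, by descent (`TS/Irr`). In the first case
the double commutators `[[𝔰𝔭, 𝔰𝔭], [𝔰𝔭, 𝔰𝔭]] = 𝔰𝔭` in the component `a` are in `𝔱` (`TS/Grp`).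
(4) In the second case the element of `Tan` for `X` in another component `b` has its component `a` in `𝔞` and in the conjugate of `E`, hence it is a
scalar matrix and the common eigenvalue is zero. Then the components `b` come from the centraliser of `N`, which has dimension `m`, and
the component `b` is as in the first case (`TS/Two`). So at most one component is exceptional (`TS/Flag`). The multipliers are obtained
from a derivation of `ℂ` over `K` (`TS/Om`).
(5) The projections to the summands and products of the forms `A_a` and their inverses, with total weight zero, are de Rham–Betti classes,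
so that the isomorphisms which respect all these classes are the `⨁ X_a` above (`TS/Drb`).
-/

set_option autoImplicit false

open PowerSeries

namespace Pool.Agent.Results.MP_f11a48_ag.CalabiYauSubtorsors

/-- the nilpotent Jordan block -/
def N (n : ℕ) : Matrix (Fin n) (Fin n) ℚ := Matrix.of fun i j => if (j : ℕ) = i + 1 then 1 else 0

/-- the matrix of the standard alternating form, for even `n` -/
def S (n : ℕ) : Matrix (Fin n) (Fin n) ℚ := Matrix.of fun i j => if (i : ℕ) + j + 1 = n then (-1) ^ (i : ℕ) else 0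

/-- a rational matrix as a complex matrix -/
def toC {n : ℕ} (M : Matrix (Fin n) (Fin n) ℚ) : Matrix (Fin n) (Fin n) ℂ := M.map fun x : ℚ => (x : ℂ)

/-- a rational matrix as a matrix of constant power series -/
noncomputable def toPS {n : ℕ} (M : Matrix (Fin n) (Fin n) ℚ) : Matrix (Fin n) (Fin n) (PowerSeries ℚ) :=
  M.map fun x : ℚ => (C x : PowerSeries ℚ)

/-- the coefficients of index at most `k` and their common denominator are at most `K^(k+1)` -/
def IsGFunction (f : PowerSeries ℚ) : Prop :=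
  ∃ K : ℕ, ∀ k : ℕ, |((coeff k f : ℚ) : ℝ)| ≤ (K : ℝ) ^ (k + 1) ∧
    ∃ d : ℕ, 0 < d ∧ (d : ℝ) ≤ (K : ℝ) ^ (k + 1) ∧ ∀ j ≤ k, ∃ a : ℤ, (d : ℚ) * coeff j f = a

/-- The matrix `P(x) x^N` is the period matrix of a variation of Calabi–Yau type near `x = 0`, in symplectic bases: `P` is
symplectic, its entries are G-functions, and `x d/dx (P x^N) = (A / T) P x^N`, i.e. `T (x P' + P N) = A P`, for a matrix `A` of
polynomials and a polynomial `T ≠ 0`. -/
structure IsVariation {m : ℕ} (P : Matrix (Fin (2 * m)) (Fin (2 * m)) (PowerSeries ℚ)) : Prop where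
  form : P * toPS (S (2 * m)) * P.transpose = toPS (S (2 * m))
  gfun : ∀ i j, IsGFunction (P i j)
  ode : ∃ (T : Polynomial ℚ) (A : Matrix (Fin (2 * m)) (Fin (2 * m)) (Polynomial ℚ)), T ≠ 0 ∧ ∀ i j,
    (T : PowerSeries ℚ) * (X * d⁄dX ℚ (P i j) + (P * toPS (N (2 * m))) i j) = ∑ k, (A i k : PowerSeries ℚ) * P k j

/-- The algebraic monodromy group of the sum of the variations is the product of the symplectic groups: all polynomial
relations between the entries of the matrices `P_i`, with coefficients which are polynomials in `x`, hold for all `x` and for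
all symplectic matrices. -/
def MaximalMonodromy {r : ℕ} {m : Fin r → ℕ} (P : ∀ i, Matrix (Fin (2 * m i)) (Fin (2 * m i)) (PowerSeries ℚ)) : Prop :=
  ∀ F : MvPolynomial (Σ i, Fin (2 * m i) × Fin (2 * m i)) (Polynomial ℚ),
    MvPolynomial.aeval (fun v : Σ i, Fin (2 * m i) × Fin (2 * m i) => P v.1 v.2.1 v.2.2) F = 0 →
    ∀ (x : ℂ) (Z : ∀ i, Matrix (Fin (2 * m i)) (Fin (2 * m i)) ℂ),
      (∀ i, Z i * toC (S (2 * m i)) * (Z i).transpose = toC (S (2 * m i))) →
      MvPolynomial.eval₂ (Polynomial.aeval x : Polynomial ℚ →ₐ[ℚ] ℂ).toRingHom (fun v => Z v.1 v.2.1 v.2.2) F = 0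

/-- the value of a matrix of power series at `z` -/
noncomputable def val {n : ℕ} (P : Matrix (Fin n) (Fin n) (PowerSeries ℚ)) (z : ℂ) : Matrix (Fin n) (Fin n) ℂ :=
  Matrix.of fun i j => ∑' k : ℕ, ((coeff k (P i j) : ℚ) : ℂ) * z ^ k

/-- the matrix `exp (l N)`, that is `z^N` for `l = log z` -/
noncomputable def expN (n : ℕ) (l : ℂ) : Matrix (Fin n) (Fin n) ℂ :=
  ∑ a ∈ Finset.range n, (l ^ a / (a.factorial : ℂ)) • toC (N n) ^ a

/-- The base change `C` from the Frobenius basis to rational coordinates and the rational form `(v, w) ↦ v A wᵀ` on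
`ℚ^n` (row vectors) are a rational structure with a form: the logarithm `2 π i C⁻¹ N C` of the local monodromy is rational
and the form is proportional to the flat form `S`. -/
structure RationalStructure {n : ℕ} (C : Matrix (Fin n) (Fin n) ℂ) (A : Matrix (Fin n) (Fin n) ℚ) : Prop where
  det : C.det ≠ 0
  log : ∃ M : Matrix (Fin n) (Fin n) ℚ, C * toC M = (2 * (Real.pi : ℂ) * Complex.I) • (toC (N n) * C)
  form : ∃ κ : ℂ, κ ≠ 0 ∧ C * toC A * C.transpose = κ • toC (S n)

/-- `T` is (the set of complex points of) a `K`-subtorsor of `GL_B = Iso (M_dR, M_B)`: it is closed under `x y⁻¹ z`, and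
it is defined in `GL_B` by polynomials with coefficients in `K`. -/
def IsSubtorsor (K : Subfield ℂ) {B : Type} [Fintype B] [DecidableEq B] (T : Set (Matrix B B ℂ)) : Prop :=
  (∀ x ∈ T, ∀ y ∈ T, ∀ z ∈ T, x * y⁻¹ * z ∈ T) ∧ ∃ I : Set (MvPolynomial (B × B) K), ∀ x : Matrix B B ℂ, x ∈ T ↔
    IsUnit x ∧ ∀ p ∈ I, MvPolynomial.eval (fun b => x b.1 b.2) (MvPolynomial.map (algebraMap K ℂ) p) = 0

/-- `Ω` is the smallest `K`-subtorsor which contains the period matrix `c` -/
def IsOmega (K : Subfield ℂ) {B : Type} [Fintype B] [DecidableEq B] (c : Matrix B B ℂ) (Ω : Set (Matrix B B ℂ)) : Prop :=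
  IsSubtorsor K Ω ∧ c ∈ Ω ∧ ∀ T : Set (Matrix B B ℂ), IsSubtorsor K T → c ∈ T → Ω ⊆ T

/-- the tensor power `x^{⊗ k}` of a matrix `x` -/
def tpow (k : ℕ) {B : Type} [Fintype B] (x : Matrix B B ℂ) : Matrix (Fin k → B) (Fin k → B) ℂ :=
  Matrix.of fun i j => ∏ a, x (i a) (j a)

/-- The intersection of the `Ω_α` for all de Rham–Betti classes `α` of the motive `M` with the period matrix `c`: all isomorphisms
`x` which respect all these classes. A de Rham–Betti class `α` in `Hom (M^{⊗ k}, M^{⊗ l}) = M^{⊗ l} ⊗ (M^∨)^{⊗ k}` consists of a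
tensor `α_dR` over `K` and a rational tensor `α_B` with `c^{⊗ k} α_B = α_dR c^{⊗ l}`. -/
def deRhamBetti (K : Subfield ℂ) {B : Type} [Fintype B] [DecidableEq B] (c : Matrix B B ℂ) : Set (Matrix B B ℂ) :=
  {x | IsUnit x ∧ ∀ (k l : ℕ) (αdR : Matrix (Fin k → B) (Fin l → B) K) (αB : Matrix (Fin k → B) (Fin l → B) ℚ),
    tpow k c * αB.map (fun q : ℚ => (q : ℂ)) = αdR.map (fun q : K => (q : ℂ)) * tpow l c →
    tpow k x * αB.map (fun q : ℚ => (q : ℂ)) = αdR.map (fun q : K => (q : ℂ)) * tpow l x}

/-- the period matrix `P(z) z^N C` of the fibre at `z`, with a value `l` of `log z` and the rational structure `C` -/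
noncomputable def fibre {n : ℕ} (P : Matrix (Fin n) (Fin n) (PowerSeries ℚ)) (z l : ℂ) (C : Matrix (Fin n) (Fin n) ℂ) :
    Matrix (Fin n) (Fin n) ℂ := val P z * expN n l * C

/-- The period matrix of the sum of the fibres of the families with the numbers `c 1, …, c s` at the points `z 1, …, z s`, with
the values `l_a` of `log z_a` and the rational structures `C_a`: the block diagonal matrix with the blocks
`P_(c a)(z_a) z_a^N C_a`. -/
noncomputable def periods {r : ℕ} {m : Fin r → ℕ} (P : ∀ i, Matrix (Fin (2 * m i)) (Fin (2 * m i)) (PowerSeries ℚ)) {s : ℕ}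
    (c : Fin s → Fin r) (z l : Fin s → ℂ) (C : ∀ a, Matrix (Fin (2 * m (c a))) (Fin (2 * m (c a))) ℂ) :
    Matrix (Σ a, Fin (2 * m (c a))) (Σ a, Fin (2 * m (c a))) ℂ :=
  Matrix.blockDiagonal' fun a => fibre (P (c a)) (z a) (l a) (C a)

/-- the subspace `V` of `ℂ^n` is defined over `K`: it is spanned by vectors with coordinates in `K` -/
def DefinedOver (K : Subfield ℂ) {n : ℕ} (V : Submodule ℂ (Fin n → ℂ)) : Prop :=
  V ≤ Submodule.span ℂ {v | v ∈ V ∧ ∀ i, v i ∈ K}

/-- The motive `M` with the period matrix `c` is simple over `K`: there are no subspaces `V` of the dual space of `M_B` and `W` of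
the dual space of `M_dR` (column vectors) which are defined over `K` and correspond to each other under the period
isomorphism `c`, except for zero and everything. -/
def IsSimpleOver (K : Subfield ℂ) {n : ℕ} (c : Matrix (Fin n) (Fin n) ℂ) : Prop :=
  ∀ V W : Submodule ℂ (Fin n → ℂ), DefinedOver K V → DefinedOver K W → (∀ v, v ∈ V ↔ c.mulVec v ∈ W) → V = ⊥ ∨ V = ⊤

/-- The fibre of the family `P` at the point `z` is exceptional: for some rational structure it is not simple over some number
field of degree at most `D`. -/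
def IsExceptional (D : ℕ) {n : ℕ} (P : Matrix (Fin n) (Fin n) (PowerSeries ℚ)) (z : ℂ) : Prop :=
  ∃ (l : ℂ) (C : Matrix (Fin n) (Fin n) ℂ) (A : Matrix (Fin n) (Fin n) ℚ) (K : Subfield ℂ), Complex.exp l = z ∧
    RationalStructure C A ∧ FiniteDimensional ℚ K ∧ Module.finrank ℚ K ≤ D ∧ ¬ IsSimpleOver K (fibre P z l C)

/-- The torsor of periods of the sum of the fibres of the families with the numbers `c 1, …, c s` at the points `z 1, …, z s` is
as large as possible, for all rational structures and over all number fields `K` of degree at most `D`: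
(a) all `K`-subtorsors which contain the period matrix are stable under the product of the symplectic groups of the fibres
which are simple over `K`;
(b) if all fibres are simple over `K` and the polarisations are `C_a A_a C_aᵀ = κ^(w_a) S` for a transcendental number `κ` (for
motives of weights `w_a`: `κ = 2πi`), then the smallest `K`-subtorsor which contains the period matrix is the torsor of all
isomorphisms which respect all de Rham–Betti classes, and this is the torsor of all `⨁ X_a` with `X_a A_a X_aᵀ = μ^(w_a) S` for some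
`μ ≠ 0`. -/
def LargeTorsor (D : ℕ) {r : ℕ} {m : Fin r → ℕ} (P : ∀ i, Matrix (Fin (2 * m i)) (Fin (2 * m i)) (PowerSeries ℚ)) {s : ℕ}
    (c : Fin s → Fin r) (z : Fin s → ℂ) : Prop :=
  ∀ (l : Fin s → ℂ) (C : ∀ a, Matrix (Fin (2 * m (c a))) (Fin (2 * m (c a))) ℂ)
    (A : ∀ a, Matrix (Fin (2 * m (c a))) (Fin (2 * m (c a))) ℚ) (K : Subfield ℂ),
    (∀ a, Complex.exp (l a) = z a) → (∀ a, RationalStructure (C a) (A a)) →
    FiniteDimensional ℚ K → Module.finrank ℚ K ≤ D →
    (∀ T : Set (Matrix (Σ a, Fin (2 * m (c a))) (Σ a, Fin (2 * m (c a))) ℂ), IsSubtorsor K T → periods P c z l C ∈ T →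
      ∀ g : ∀ a, Matrix (Fin (2 * m (c a))) (Fin (2 * m (c a))) ℂ,
        (∀ a, g a * toC (S (2 * m (c a))) * (g a).transpose = toC (S (2 * m (c a)))) →
        (∀ a, IsSimpleOver K (fibre (P (c a)) (z a) (l a) (C a)) ∨ g a = 1) →
        ∀ x ∈ T, Matrix.blockDiagonal' g * x ∈ T) ∧
    ((∀ a, IsSimpleOver K (fibre (P (c a)) (z a) (l a) (C a))) →
      ∀ (κ : ℂ) (w : Fin s → ℕ), Transcendental ℚ κ → (∀ a, 1 ≤ w a) →
      (∀ a, C a * toC (A a) * (C a).transpose = κ ^ w a • toC (S (2 * m (c a)))) →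
      IsOmega K (periods P c z l C) (deRhamBetti K (periods P c z l C)) ∧
      deRhamBetti K (periods P c z l C) = {x | ∃ (μ : ℂ) (X : ∀ a, Matrix (Fin (2 * m (c a))) (Fin (2 * m (c a))) ℂ), μ ≠ 0 ∧
        x = Matrix.blockDiagonal' X ∧ ∀ a, X a * toC (A a) * (X a).transpose = μ ^ w a • toC (S (2 * m (c a)))})

/-- `ξ` is a root of a nonzero integral polynomial of degree at most `g` with coefficients of size at most `|ξ|^A` -/
def Height (g A : ℕ) (ξ : ℂ) : Prop :=
  ∃ p : Polynomial ℤ, p ≠ 0 ∧ p.natDegree ≤ g ∧ (∀ j, |(p.coeff j : ℝ)| ≤ ‖ξ‖ ^ A) ∧ Polynomial.aeval ξ p = 0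

/-- The conclusion about the fibres of all families at the points `1 / (ξ - G u)`, `0 ≤ u ≤ B`: at most one of them is
exceptional, and it has rank four; all sums of `s` of them, with different pairs of the family and the point, have a large torsor of
periods. -/
def LargeWindow (D : ℕ) {r : ℕ} {m : Fin r → ℕ} (P : ∀ i, Matrix (Fin (2 * m i)) (Fin (2 * m i)) (PowerSeries ℚ))
    (G B s : ℕ) (ξ : ℂ) : Prop :=
  (∀ (i i' : Fin r) (u u' : ℕ), u ≤ B → u' ≤ B → IsExceptional D (P i) (1 / (ξ - ((G * u : ℕ) : ℂ))) →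
    IsExceptional D (P i') (1 / (ξ - ((G * u' : ℕ) : ℂ))) → i = i' ∧ u = u' ∧ m i = 2) ∧
  ∀ (c : Fin s → Fin r) (u : Fin s → ℕ), (∀ a, u a ≤ B) → Function.Injective (fun a => (u a, c a)) →
    LargeTorsor D P c (fun a => 1 / (ξ - ((G * u a : ℕ) : ℂ)))

theorem toC_eq {n : ℕ} (M : Matrix (Fin n) (Fin n) ℚ) : toC M = Pool.Agent.Y113.MT.cq M := rfl

theorem toC_N (n : ℕ) : toC (N n) = Pool.Agent.Y113.MT.NN ℂ n := by
  ext i j
  unfold toC N Pool.Agent.Y113.MT.NN
  rw [Matrix.map_apply, Matrix.of_apply, Matrix.of_apply]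
  split_ifs <;> simp

theorem toC_S (n : ℕ) : toC (S n) = Pool.Agent.Y113.MT.SS ℂ n := W2helper4.CY.cq_SS n

theorem expN_eq (n : ℕ) (l : ℂ) : expN n l = Pool.Agent.Y119.HY.E (Pool.Agent.Y113.MT.NN ℂ n) l := by
  unfold expN Pool.Agent.Y119.HY.E
  rw [toC_N]

theorem val_eq {n : ℕ} (P : Matrix (Fin n) (Fin n) (PowerSeries ℚ)) (z : ℂ) : val P z = W2helper4.CY.Mv P z := rfl

/-- the conditions in the form used in the library -/
theorem fv {m : ℕ} {P : Matrix (Fin (2 * m)) (Fin (2 * m)) (PowerSeries ℚ)} (h : IsVariation P) :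
    W2helper4.CY.FV 1 P := by
  obtain ⟨T, A, hT, hode⟩ := h.ode
  refine ⟨W2helper4.CY.form_flip (W2helper4.CY.cM_SS_sq m) h.form, fun i j => ?_, ?_⟩
  · obtain ⟨K, hK⟩ := h.gfun i j
    exact W2helper4.CY.sdc_of_bound hK
  · obtain ⟨D, q, hD, hq⟩ := W2helper4.CY.clear_fin (fun x : Option (Fin (2 * m) × Fin (2 * m)) =>
      x.elim T fun y => A y.1 y.2)
    have h1 : Y113.ps (q none) = C (D : ℚ) * (T : PowerSeries ℚ) := by
      unfold Y113.ps
      rw [hq, Polynomial.coe_mul, Polynomial.coe_C]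
      rfl
    have h2 : ∀ i k, Y113.ps (q (some (i, k))) = C (D : ℚ) * (A i k : PowerSeries ℚ) := by
      intro i k
      unfold Y113.ps
      rw [hq, Polynomial.coe_mul, Polynomial.coe_C]
      rfl
    refine ⟨q none, fun i k => q (some (i, k)), ?_, fun i j => ?_⟩
    · intro h0
      have h3 := hq none
      rw [h0, Polynomial.map_zero] at h3
      rcases mul_eq_zero.1 h3.symm with h4 | h4
      · rw [Polynomial.C_eq_zero] at h4
        exact hD (by exact_mod_cast h4)
      · exact hT h4
    · have h3 := hode i j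
      rw [Matrix.mul_apply] at h3
      have h4 : ∀ k : Fin (2 * m), ((1 : ℕ) : ℚ) * Pool.Agent.Y113.MT.NN ℚ (2 * m) k j = N (2 * m) k j := by
        intro k
        rw [Nat.cast_one, one_mul]
        rfl
      simp only [h4, h1, h2]
      have h5 : ∑ k, P i k * C (N (2 * m) k j) = ∑ k, P i k * toPS (N (2 * m)) k j := rfl
      rw [h5, mul_assoc, h3, Finset.mul_sum]
      exact Finset.sum_congr rfl fun k _ => by rw [mul_assoc]

theorem max_eq {r : ℕ} {m : Fin r → ℕ} {P : ∀ i, Matrix (Fin (2 * m i)) (Fin (2 * m i)) (PowerSeries ℚ)}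
    (h : MaximalMonodromy P) : W2helper4.CY.Max P := by
  intro F hF x Z hZ
  refine h F hF x Z fun i => ?_
  rw [toC_S]
  exact W2helper4.CY.form_flip' (Pool.Agent.Y113.MT.SS_sq (m i)) (hZ i)

/-! ### the hypergeometric families -/

/-- the power series `x + ε` in the variable `ε` -/
noncomputable def shift (x : ℚ) : PowerSeries ℚ := C x + X

/-- `a_k(ε) = ∏_{l < k} ∏_j (l + ε + β_j) (l + ε + 1 - β_j) / (l + 1 + ε)^2`. The series `∑_k a_k(ε) z^(k + ε)` satisfies
`(θ^n - z ∏_j (θ + β_j) (θ + 1 - β_j)) f = ε^n z^ε`, `θ = z d/dz`, `n = 2m`, hence its coefficients `f_j` at `ε^j` with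
`j < n` are solutions of the homogeneous equation. -/
noncomputable def frob {m : ℕ} (β : Fin m → ℚ) (k : ℕ) : PowerSeries ℚ :=
  ∏ l ∈ Finset.range k, ∏ j, (shift (l + β j) * shift (l + 1 - β j) * ((shift (l + 1))⁻¹) ^ 2)

/-- `β` and `β'` agree up to a permutation and replacing some of the numbers `β` by `1 - β` (then the operators and the
variations of Hodge structure agree) -/
def Equivalent {m m' : ℕ} (β : Fin m → ℚ) (β' : Fin m' → ℚ) : Prop :=
  ∃ e : Fin m ≃ Fin m', ∀ j, β j = β' (e j) ∨ β j = 1 - β' (e j)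

theorem hyp_variation {m : ℕ} (hm : 1 ≤ m) {β : Fin m → ℚ} (hβ : ∀ j, ∀ a : ℤ, β j ≠ a) :
    IsVariation (W2helper4.CY.PH β) := by
  have hQ := Pool.Agent.Y119.HZ.QD_QB hm (W2helper4.HJ.not_int hβ)
  refine ⟨W2helper4.CY.form_flip' (W2helper4.CY.cM_SS_sq m) (W2helper4.CY.form_PH hQ), fun i j => ?_, ?_⟩
  · obtain ⟨n, h1, h2⟩ := W2helper4.CY.sdc_PH hm hβ i j
    refine ⟨2 ^ n, fun k => ⟨?_, ?_⟩⟩
    · push_cast
      exact h1 k
    · push_cast
      exact h2 k
  · set B := Y118.CM.DN β * Pool.Agent.Y119.HY.Bm (2 * m) (Pool.Agent.Y119.HY.QB β) * (Y118.CM.DN β)⁻¹ with hB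
    refine ⟨1 - Polynomial.X, Matrix.of fun i k => (1 - Polynomial.X) * Polynomial.C (N (2 * m) i k) +
      Polynomial.X * Polynomial.C (B i k), ?_, fun i j => ?_⟩
    · intro h0
      have := congrArg (Polynomial.eval 0) h0
      simp at this
    · have h1 := congrFun (congrFun (W2helper4.CY.ode_PH hQ) i) j
      rw [Matrix.smul_apply, Matrix.add_apply, smul_eq_mul] at h1
      have h2 : ((1 - Polynomial.X : Polynomial ℚ) : PowerSeries ℚ) = 1 - X := by
        rw [Polynomial.coe_sub, Polynomial.coe_one, Polynomial.coe_X]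
      rw [h2]
      refine h1.trans ?_
      rw [Matrix.mul_apply]
      refine Finset.sum_congr rfl fun k _ => ?_
      rw [Matrix.of_apply, Polynomial.coe_add, Polynomial.coe_mul, Polynomial.coe_mul, h2, Polynomial.coe_X,
        Polynomial.coe_C, Polynomial.coe_C]
      rfl

theorem hyp_max {r : ℕ} {m : Fin r → ℕ} (hm : ∀ i, 1 ≤ m i) (β : ∀ i, Fin (m i) → ℚ)
    (hβ : ∀ i j, 0 < β i j ∧ β i j < 1) (hne : ∀ i k, i ≠ k → ¬ Equivalent (β i) (β k)) :
    MaximalMonodromy fun i => W2helper4.CY.PH (β i) := by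
  have hβ' : ∀ i j, ∀ a : ℤ, β i j ≠ a := by
    intro i j a h
    have h1 := hβ i j
    rw [h] at h1
    have h2 : (0 : ℤ) < a := by exact_mod_cast h1.1
    have h3 : a < (1 : ℤ) := by exact_mod_cast h1.2
    omega
  have hne' : ∀ i k, i ≠ k → ¬ W2helper4.HJ.Eqv (β i) (β k) := by
    rintro i k hik ⟨e, he⟩
    refine hne i k hik ⟨e, fun j => ?_⟩
    obtain ⟨a, ha⟩ := he j
    have h1 := hβ i j
    have h2 := hβ k (e j)
    rcases ha with ha | ha
    · left
      have h3 : (-1 : ℚ) < a := by linarith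
      have h4 : (a : ℚ) < 1 := by linarith
      have h5 : -1 < a := by exact_mod_cast h3
      have h6 : a < 1 := by exact_mod_cast h4
      have h7 : a = 0 := by omega
      rw [ha, h7]
      simp
    · right
      have h3 : (0 : ℚ) < a := by linarith
      have h4 : (a : ℚ) < 2 := by linarith
      have h5 : 0 < a := by exact_mod_cast h3
      have h6 : a < 2 := by exact_mod_cast h4
      have h7 : a = 1 := by omega
      rw [ha, h7]
      simp
  intro F hF x Z hZ
  refine W2helper4.CY.max_PH hm β hβ' hne' F hF x Z fun i => W2helper4.CY.form_flip (Pool.Agent.Y113.MT.SS_sq (m i)) ?_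
  rw [← toC_S]
  exact hZ i

/-- **The hypergeometric families are examples.** Let `β_1, …, β_r` be pairwise inequivalent tuples of rational numbers in
`(0, 1)`. There are matrices `P_i` which satisfy all conditions, such that the first `m_i` rows of `P_i(x) x^N` (they determine
the Hodge filtration) are the derivatives `θ^a (f_0, …, f_(2 m_i - 1))`, `a < m_i`, of the Frobenius basis of the equation
`θ^(2 m_i) - x ∏_j (θ + β_ij) (θ + 1 - β_ij)`. -/
theorem hypergeometric {r : ℕ} (m : Fin r → ℕ) (β : ∀ i, Fin (m i) → ℚ) (hm : ∀ i, 1 ≤ m i)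
    (hβ : ∀ i j, 0 < β i j ∧ β i j < 1) (hne : ∀ i k, i ≠ k → ¬ Equivalent (β i) (β k)) :
    ∃ P : ∀ i, Matrix (Fin (2 * m i)) (Fin (2 * m i)) (PowerSeries ℚ), (∀ i, IsVariation (P i)) ∧ MaximalMonodromy P ∧
      ∀ i (a b : Fin (2 * m i)), (a : ℕ) < m i → ∀ k : ℕ,
        coeff k (P i a b) = coeff (b : ℕ) (shift (k : ℚ) ^ (a : ℕ) * frob (β i) k) := by
  have hβ' : ∀ i j, ∀ a : ℤ, β i j ≠ a := by
    intro i j a h
    have h1 := hβ i j
    rw [h] at h1
    have h2 : (0 : ℤ) < a := by exact_mod_cast h1.1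
    have h3 : a < (1 : ℤ) := by exact_mod_cast h1.2
    omega
  refine ⟨fun i => W2helper4.CY.PH (β i), fun i => hyp_variation (hm i) (hβ' i), hyp_max hm β hβ hne,
    fun i a b ha k => ?_⟩
  exact W2helper4.CY.row_PH (Pool.Agent.Y119.HZ.QD_QB (hm i) (W2helper4.HJ.not_int (hβ' i))) ha b k

/-- the conclusion of the library -/
def LibC (D : ℕ) {r : ℕ} {m : Fin r → ℕ} (P : ∀ i, Matrix (Fin (2 * m i)) (Fin (2 * m i)) (PowerSeries ℚ)) {s : ℕ}
    (c : Fin s → Fin r) (z : Fin s → ℂ) : Prop :=
  ∀ (C : ∀ a, Matrix (Fin (2 * m (c a))) (Fin (2 * m (c a))) ℂ)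
    (M A : ∀ a, Matrix (Fin (2 * m (c a))) (Fin (2 * m (c a))) ℚ) (q : ℂ) (κ : Fin s → ℂ), (∀ a, (C a).det ≠ 0) →
    q ≠ 0 → (∀ a, C a * Pool.Agent.Y113.MT.cq (M a) = q • (Pool.Agent.Y113.MT.NN ℂ (2 * m (c a)) * C a)) →
    (∀ a, κ a ≠ 0) →
    (∀ a, C a * Pool.Agent.Y113.MT.cq (A a) * (C a).transpose = κ a • Pool.Agent.Y113.MT.SS ℂ (2 * m (c a))) →
    ∀ K : Subfield ℂ, W2helper4.TS.Bdd D K →
    W2helper4.TS.Concl (fun a => m (c a)) K (fun a => W2helper4.CY.Mv (P (c a)) (z a) * C a)

theorem LibC.mono {D D' : ℕ} (hD : D ≤ D') {r : ℕ} {m : Fin r → ℕ}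
    {P : ∀ i, Matrix (Fin (2 * m i)) (Fin (2 * m i)) (PowerSeries ℚ)} {s : ℕ} {c : Fin s → Fin r} {z : Fin s → ℂ}
    (h : LibC D' P c z) : LibC D P c z := fun C M A q κ h1 h2 h3 h4 h5 K hK =>
  h C M A q κ h1 h2 h3 h4 h5 K fun x hx => by
    obtain ⟨f, h6, h7, h8⟩ := hK x hx
    exact ⟨f, h6, h7.trans hD, h8⟩

/-- the conclusion for rational structures -/
theorem concl_of {r : ℕ} {m : Fin r → ℕ} {P : ∀ i, Matrix (Fin (2 * m i)) (Fin (2 * m i)) (PowerSeries ℚ)}
    {D s : ℕ} {c : Fin s → Fin r} {z : Fin s → ℂ} (h : LibC D P c z) (l : Fin s → ℂ)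
    {C : ∀ a, Matrix (Fin (2 * m (c a))) (Fin (2 * m (c a))) ℂ} {A : ∀ a, Matrix (Fin (2 * m (c a))) (Fin (2 * m (c a))) ℚ}
    (hR : ∀ a, RationalStructure (C a) (A a)) {K : Subfield ℂ} (hK : W2helper4.TS.Bdd D K) :
    W2helper4.TS.Concl (fun a => m (c a)) K (fun a => fibre (P (c a)) (z a) (l a) (C a)) := by
  have hpi : (2 * (Real.pi : ℂ) * Complex.I) ≠ 0 := Complex.two_pi_I_ne_zero
  choose M hM using fun a => (hR a).log
  choose κ' hκ hκA using fun a => (hR a).form
  have hM' : ∀ a, C a * Pool.Agent.Y113.MT.cq (M a) =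
      (2 * (Real.pi : ℂ) * Complex.I) • (Pool.Agent.Y113.MT.NN ℂ (2 * m (c a)) * C a) := by
    intro a
    rw [← toC_N]
    exact hM a
  have hA' : ∀ a, C a * Pool.Agent.Y113.MT.cq (A a) * (C a).transpose =
      κ' a • Pool.Agent.Y113.MT.SS ℂ (2 * m (c a)) := by
    intro a
    rw [← toC_S]
    exact hκA a
  have htw := fun a => W2helper4.CY.twist (l a) (hR a).det (hM' a) (hA' a)
  have hper : (fun a => fibre (P (c a)) (z a) (l a) (C a)) = fun a => W2helper4.CY.Mv (P (c a)) (z a) *
      (Pool.Agent.Y119.HY.E (Pool.Agent.Y113.MT.NN ℂ (2 * m (c a))) (l a) * C a) := by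
    funext a
    unfold fibre
    rw [expN_eq, val_eq, Matrix.mul_assoc]
  rw [hper]
  exact h _ M A _ κ' (fun a => (htw a).1) hpi (fun a => (htw a).2.1) hκ (fun a => (htw a).2.2) K hK

/-- the torsor of periods, in terms of the library -/
theorem large_of {r : ℕ} {m : Fin r → ℕ} (hm : ∀ i, 2 ≤ m i) {P : ∀ i, Matrix (Fin (2 * m i)) (Fin (2 * m i)) (PowerSeries ℚ)}
    {D s : ℕ} {c : Fin s → Fin r} {z : Fin s → ℂ}
    (hform : ∀ a, (W2helper4.CY.Mv (P (c a)) (z a)).transpose * Pool.Agent.Y113.MT.SS ℂ (2 * m (c a)) *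
      W2helper4.CY.Mv (P (c a)) (z a) = Pool.Agent.Y113.MT.SS ℂ (2 * m (c a)))
    (h : LibC D P c z) : LargeTorsor D P c z := by
  intro l C A K _ hR hfin hD
  have hB : W2helper4.TS.Bdd D K := W2helper4.TS.bdd_of_finrank K hD
  have hconcl := concl_of h l hR hB
  have hper : periods P c z l C = W2helper4.TS.bd fun a => fibre (P (c a)) (z a) (l a) (C a) := rfl
  have hm1 : ∀ a, 1 ≤ m (c a) := fun a => by
    have := hm (c a)
    omega
  refine ⟨fun T hT hcT g hg hgI x hx => ?_, fun hI κ w hκt hw hκw => ?_⟩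
  · have hT' := W2helper33.BD.subtorsor_iff.1 hT
    refine W2helper33.BD.Gp_act hT' le_rfl (W2helper4.TS.blocks_Gp hm1
      (I := fun a => IsSimpleOver K (fibre (P (c a)) (z a) (l a) (C a)))
      (fun a ha => hconcl.1 T hT' hcT a ha) (fun a => ?_) hgI) x hx
    refine W2helper4.CY.form_flip (Pool.Agent.Y113.MT.SS_sq (m (c a))) ?_
    rw [← toC_S]
    exact hg a
  · have hall : ∀ T : Set (Matrix (W2helper4.TS.BI fun a => m (c a)) (W2helper4.TS.BI fun a => m (c a)) ℂ),
        TH127.PT.IsSubtorsor K T → periods P c z l C ∈ T →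
        W2helper4.TS.gS (fun a => m (c a)) ≤ W2helper33.OQ.LM T := by
      intro T hT hcT
      refine Submodule.span_le.2 ?_
      rintro _ ⟨a, v, rfl⟩
      exact hconcl.1 T hT hcT a (hI a) v
    have hκ0 : κ ≠ 0 := by
      rintro rfl
      exact hκt isAlgebraic_zero
    -- the set
    have hset : {x : Matrix (Σ a, Fin (2 * m (c a))) (Σ a, Fin (2 * m (c a))) ℂ | ∃ (μ : ℂ)
        (X : ∀ a, Matrix (Fin (2 * m (c a))) (Fin (2 * m (c a))) ℂ), μ ≠ 0 ∧ x = Matrix.blockDiagonal' X ∧
        ∀ a, X a * toC (A a) * (X a).transpose = μ ^ w a • toC (S (2 * m (c a)))} =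
        W2helper4.TS.EE (fun a => m (c a)) A w := by
      ext x
      constructor
      · rintro ⟨μ, X, hμ, rfl, hX⟩
        refine ⟨μ, X, hμ, rfl, fun a => ?_⟩
        rw [← toC_S]
        exact hX a
      · rintro ⟨μ, X, hμ, rfl, hX⟩
        refine ⟨μ, X, hμ, rfl, fun a => ?_⟩
        rw [toC_S]
        exact hX a
    rw [hset]
    -- the periods
    have hc : ∀ a, fibre (P (c a)) (z a) (l a) (C a) * Pool.Agent.Y113.MT.cq (A a) *
        (fibre (P (c a)) (z a) (l a) (C a)).transpose = κ ^ w a • Pool.Agent.Y113.MT.SS ℂ (2 * m (c a)) := by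
      intro a
      have h1 : C a * Pool.Agent.Y113.MT.cq (A a) * (C a).transpose =
          κ ^ w a • Pool.Agent.Y113.MT.SS ℂ (2 * m (c a)) := by
        rw [← toC_S]
        exact hκw a
      obtain ⟨M, hM⟩ := (hR a).log
      rw [toC_N] at hM
      have h2 := (W2helper4.CY.twist (l a) (hR a).det hM h1).2.2
      have h3 := W2helper4.CY.form_flip' (Pool.Agent.Y113.MT.SS_sq (m (c a))) (hform a)
      have h4 : fibre (P (c a)) (z a) (l a) (C a) = W2helper4.CY.Mv (P (c a)) (z a) *
          (Pool.Agent.Y119.HY.E (Pool.Agent.Y113.MT.NN ℂ (2 * m (c a))) (l a) * C a) := by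
        unfold fibre
        rw [expN_eq, val_eq, Matrix.mul_assoc]
      rw [h4]
      set p := W2helper4.CY.Mv (P (c a)) (z a)
      set y := Pool.Agent.Y119.HY.E (Pool.Agent.Y113.MT.NN ℂ (2 * m (c a))) (l a) * C a
      calc p * y * Pool.Agent.Y113.MT.cq (A a) * (p * y).transpose =
            p * (y * Pool.Agent.Y113.MT.cq (A a) * y.transpose) * p.transpose := by
            rw [Matrix.transpose_mul]
            simp only [Matrix.mul_assoc]
        _ = κ ^ w a • Pool.Agent.Y113.MT.SS ℂ (2 * m (c a)) := by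
            rw [h2, Matrix.mul_smul, Matrix.smul_mul, h3]
    have hA0 : ∀ a, A a ≠ 0 := by
      intro a h0
      obtain ⟨κ', hκ', h1⟩ := (hR a).form
      have h2 : toC (A a) = 0 := by
        rw [h0]
        ext i j
        simp [toC]
      rw [h2, Matrix.mul_zero, Matrix.zero_mul, toC_S] at h1
      have h3 := congrFun (congrFun h1.symm ⟨0, by have := hm1 a; omega⟩) (Fin.rev ⟨0, by have := hm1 a; omega⟩)
      rw [Matrix.smul_apply, W2helper4.TS.SS_0, smul_eq_mul, mul_one] at h3
      exact hκ' h3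
    -- the smallest subtorsor
    have hmin : ∀ T : Set (Matrix (Σ a, Fin (2 * m (c a))) (Σ a, Fin (2 * m (c a))) ℂ), IsSubtorsor K T →
        periods P c z l C ∈ T → W2helper4.TS.EE (fun a => m (c a)) A w ⊆ T := by
      intro T hT hcT
      have hT' := W2helper33.BD.subtorsor_iff.1 hT
      rw [hper] at hcT
      exact W2helper4.TS.omega_EE hm1 hw hB.alg hκt hc (fun T' hT1 hT2 => hall T' hT1 (by rw [hper]; exact hT2)) hT' hcT
    have hcE : periods P c z l C ∈ W2helper4.TS.EE (fun a => m (c a)) A w := ⟨κ, _, hκ0, hper, hc⟩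
    -- the de Rham–Betti classes
    have hDR : deRhamBetti K (periods P c z l C) = W2helper4.TS.EE (fun a => m (c a)) A w := by
      refine Set.Subset.antisymm ?_ ?_
      · have h1 := W2helper4.TS.DR_le (K := K) hm1 hw hκ0 hc
        rw [← hper] at h1
        exact h1
      · refine hmin _ ⟨?_, ?_⟩ ?_
        · exact W2helper4.TS.DR_torsor
        · exact W2helper4.TS.DR_eqs K _
        · refine W2helper4.TS.DR_self ?_
          rw [hper]
          exact W2helper4.TS.bd_unit fun a => W2helper4.TS.sim_unit (pow_ne_zero _ hκ0) (hc a)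
    rw [hDR]
    exact ⟨⟨W2helper33.BD.subtorsor_iff.2 (W2helper4.TS.EE_sub K hm1 hw hA0), hcE, hmin⟩, rfl⟩

/-- at most one of two fibres is exceptional -/
theorem exc_two {r : ℕ} {m : Fin r → ℕ} {P : ∀ i, Matrix (Fin (2 * m i)) (Fin (2 * m i)) (PowerSeries ℚ)}
    {D : ℕ} {c : Fin 2 → Fin r} {z : Fin 2 → ℂ} (h : LibC (D * D) P c z) (he : ∀ a, IsExceptional D (P (c a)) (z a)) :
    False := by
  choose l C A K h1 h2 h3 h4 h5 using he
  have := h3 0
  have := h3 1
  obtain ⟨L, hL0, hL1, hLB⟩ := W2helper4.TS.exists_comp (K 0) (K 1) (h4 0) (h4 1)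
  rcases (concl_of h l h2 hLB).2.1 0 1 (by decide) with h6 | h6
  · exact h5 0 (W2helper4.TS.irr_mono hL0 h6)
  · exact h5 1 (W2helper4.TS.irr_mono hL1 h6)

/-- exceptional fibres have rank four -/
theorem exc_one {r : ℕ} {m : Fin r → ℕ} {P : ∀ i, Matrix (Fin (2 * m i)) (Fin (2 * m i)) (PowerSeries ℚ)}
    {D : ℕ} {c : Fin 1 → Fin r} {z : Fin 1 → ℂ} (h : LibC D P c z) (he : ∀ a, IsExceptional D (P (c a)) (z a)) :
    m (c 0) < 3 := by
  choose l C A K h1 h2 h3 h4 h5 using he
  have := h3 0
  by_contra hcon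
  exact h5 0 ((concl_of h l h2 (W2helper4.TS.bdd_of_finrank (K 0) (h4 0))).2.2 0 (not_lt.1 hcon))

/-- windows of length one -/
theorem LargeWindow.zero {D r : ℕ} {m : Fin r → ℕ} {P : ∀ i, Matrix (Fin (2 * m i)) (Fin (2 * m i)) (PowerSeries ℚ)}
    {G s : ℕ} (G' : ℕ) {ξ : ℂ} (h : LargeWindow D P G 0 s ξ) : LargeWindow D P G' 0 s ξ := by
  refine ⟨fun i i' u u' hu hu' h1 h2 => ?_, fun c u hu hinj => ?_⟩
  · obtain rfl : u = 0 := Nat.le_zero.1 hu
    obtain rfl : u' = 0 := Nat.le_zero.1 hu'
    rw [Nat.mul_zero] at h1 h2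
    exact h.1 i i' 0 0 le_rfl le_rfl (by rw [Nat.mul_zero]; exact h1) (by rw [Nat.mul_zero]; exact h2)
  · obtain rfl : u = fun _ => 0 := funext fun a => Nat.le_zero.1 (hu a)
    have h1 := h.2 c (fun _ => 0) hu hinj
    simp only [Nat.mul_zero] at h1 ⊢
    exact h1

/-- Let `V_1, …, V_r` be families of Calabi–Yau type of ranks `2 m_i ≥ 4`, given by the matrices `P_i`, with the full product of
the symplectic groups as joint monodromy group. There are `R ≥ 1` and `G0` such that the power series converge for `|z| < 1 / R`,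
and for all `G ≥ G0`, `g`, `A₀` and `D`:
(1) For all `s` there is `E` such that for all `B` and all algebraic numbers `ξ` of degree `≤ g` and of height `≤ |ξ|^A₀` with
`(B + 2)^E ≤ |ξ|` at most one of the fibres of the families at the points `1 / (ξ - G u)`, `0 ≤ u ≤ B`, is exceptional, this can only happen in
rank four, and all sums of `s` of these fibres, with pairwise different pairs of the family and the point, have a large torsor of periods,
for all rational structures and over all number fields of degree `≤ D`.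
(2) For all `B` and for all but finitely many algebraic numbers `ξ` of degree `≤ g` and of height `≤ |ξ|^A₀`, for which the points
`1 / (ξ - G u)`, `0 ≤ u ≤ B`, are in the disc `|z| < 1 / R`, at most one of the fibres at these points is exceptional, only in
rank four, and all sums of these fibres, with pairwise different pairs of the family and the point, have a large torsor of periods. For `B = 0`
this is about sums of fibres of different families at the point `1 / ξ`, for example the fibre of `V_1 ⊕ ⋯ ⊕ V_r`.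
(3) All but finitely many algebraic integers `ξ` of degree `≤ g` have a conjugate `ξ'` with `|ξ'| > R` such that the same holds at the
point `1 / ξ'`.
(4) For all `D` there is `E ≥ 1` such that for all `X ≥ 1` and for all natural numbers `n < X` with at most `4 X^(1 - 1/E)` exceptions
none of the fibres at `1 / n` is exceptional, and all sums of fibres of different families at the point `1 / n` have a large torsor
of periods. -/
theorem result {r : ℕ} (m : Fin r → ℕ) (hm : ∀ i, 2 ≤ m i)
    (P : ∀ i, Matrix (Fin (2 * m i)) (Fin (2 * m i)) (PowerSeries ℚ)) (hP : ∀ i, IsVariation (P i))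
    (hmax : MaximalMonodromy P) :
    ∃ R G0 : ℕ, 1 ≤ R ∧ (∀ (z : ℂ), (R : ℝ) * ‖z‖ < 1 → ∀ i a b,
      Summable fun k : ℕ => ((coeff k (P i a b) : ℚ) : ℂ) * z ^ k) ∧
    (∀ G : ℕ, G0 ≤ G → ∀ g A₀ D : ℕ,
      (∀ s : ℕ, ∃ E : ℕ, ∀ (B : ℕ) (ξ : ℂ), ((B : ℝ) + 2) ^ E ≤ ‖ξ‖ → Height g A₀ ξ →
        (∀ u : ℕ, u ≤ B → (R : ℝ) < ‖ξ - ((G * u : ℕ) : ℂ)‖) ∧ LargeWindow D P G B s ξ) ∧
      (∀ B : ℕ, {ξ : ℂ | (∀ u : ℕ, u ≤ B → (R : ℝ) < ‖ξ - ((G * u : ℕ) : ℂ)‖) ∧ Height g A₀ ξ ∧
        ∃ s : ℕ, ¬ LargeWindow D P G B s ξ}.Finite)) ∧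
    (∀ g D : ℕ, {ξ : ℂ | IsIntegral ℤ ξ ∧ (minpoly ℚ ξ).natDegree ≤ g ∧
      ∀ ξ' : ℂ, Polynomial.aeval ξ' (minpoly ℚ ξ) = 0 → (R : ℝ) < ‖ξ'‖ → ∃ s : ℕ, ¬ LargeWindow D P 0 0 s ξ'}.Finite) ∧
    (∀ D : ℕ, ∃ E : ℕ, 1 ≤ E ∧ ∀ X : ℕ, 1 ≤ X → ({n : ℕ | n < X ∧ ¬ ((R : ℝ) < n ∧
      (∀ i, ¬ IsExceptional D (P i) (1 / (n : ℂ))) ∧ ∀ s : ℕ, LargeWindow D P 0 0 s (n : ℂ))}.ncard : ℝ) ≤
        4 * (X : ℝ) ^ (1 - 1 / (E : ℝ))) := by
  obtain ⟨G0, hG0, b₀, hb₀, hb₁, hmt⟩ := W2helper4.TS.sub_fam5 hm (fun i => fv (hP i)) (max_eq hmax)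
  have key0 : ∀ G : ℕ, G0 ≤ G → ∀ g A₀ D s : ℕ, ∃ E : ℕ, ∀ (B : ℕ) (ξ : ℂ), ((B : ℝ) + 2) ^ E ≤ ‖ξ‖ → Height g A₀ ξ →
        (∀ u : ℕ, u ≤ B → ((b₀ + 1 : ℕ) : ℝ) < ‖ξ - ((G * u : ℕ) : ℂ)‖) ∧
        ∀ (c : Fin s → Fin r) (u : Fin s → ℕ), (∀ a, u a ≤ B) → Function.Injective (fun a => (u a, c a)) →
          LibC D P c (fun a => 1 / (ξ - ((G * u a : ℕ) : ℂ))) := by
    intro G hG g A₀ D s
    obtain ⟨E, hE⟩ := hmt G hG g A₀ D s
    refine ⟨E, fun B ξ hξ hht => ?_⟩
    obtain ⟨h1, h2⟩ := hE B ξ hξ hht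
    have h0 : ∀ u : ℕ, u ≤ B → ((b₀ + 1 : ℕ) : ℝ) < ‖ξ - ((G * u : ℕ) : ℂ)‖ := by
      intro u hu
      have h3 := norm_sub_norm_le ξ ((G * u : ℕ) : ℂ)
      rw [Complex.norm_natCast] at h3
      have h4 : ((G * u : ℕ) : ℝ) ≤ G * B := by
        push_cast
        exact mul_le_mul_of_nonneg_left (by exact_mod_cast hu) (Nat.cast_nonneg G)
      push_cast
      push_cast at h3 h4
      linarith
    exact ⟨h0, fun c u hub hinj => h2 c u hub fun a a' haa hc hu => haa (hinj (Prod.ext hu hc))⟩
  have key : ∀ G : ℕ, G0 ≤ G → ∀ g A₀ D s : ℕ, ∃ E : ℕ, ∀ (B : ℕ) (ξ : ℂ), ((B : ℝ) + 2) ^ E ≤ ‖ξ‖ → Height g A₀ ξ →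
        (∀ u : ℕ, u ≤ B → ((b₀ + 1 : ℕ) : ℝ) < ‖ξ - ((G * u : ℕ) : ℂ)‖) ∧ LargeWindow D P G B s ξ := by
    intro G hG g A₀ D s
    obtain ⟨E, hE⟩ := key0 G hG g A₀ (D * D) s
    obtain ⟨E1, hE1⟩ := key0 G hG g A₀ (D * D) 1
    obtain ⟨E2, hE2⟩ := key0 G hG g A₀ (D * D) 2
    refine ⟨E + E1 + E2, fun B ξ hξ hht => ?_⟩
    have hB1 : (1 : ℝ) ≤ (B : ℝ) + 2 := by linarith [(Nat.cast_nonneg B : (0 : ℝ) ≤ B)]
    obtain ⟨h0, h1⟩ := hE B ξ ((pow_le_pow_right₀ hB1 (by omega)).trans hξ) hht
    obtain ⟨-, h2⟩ := hE1 B ξ ((pow_le_pow_right₀ hB1 (by omega)).trans hξ) hht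
    obtain ⟨-, h3⟩ := hE2 B ξ ((pow_le_pow_right₀ hB1 (by omega)).trans hξ) hht
    have hDD : D ≤ D * D := Nat.le_mul_self D
    refine ⟨h0, fun i i' u u' hu hu' he he' => ?_, fun c u hub hinj => ?_⟩
    · have hm2 : m i = 2 := by
        have h4 := exc_one ((h2 (fun _ => i) (fun _ => u) (fun _ => hu) (fun a a' _ => Subsingleton.elim a a')).mono hDD)
          (fun _ => he)
        have h5 := hm i
        omega
      by_contra hcon
      have hne : ¬ (u = u' ∧ i = i') := fun h => hcon ⟨h.2, h.1, hm2⟩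
      refine exc_two (h3 ![i, i'] ![u, u'] (Fin.forall_fin_two.2 ⟨hu, hu'⟩) ?_) (Fin.forall_fin_two.2 ⟨he, he'⟩)
      intro a a' haa
      have h4 : ![u, u'] a = ![u, u'] a' := congrArg Prod.fst haa
      have h5 : ![i, i'] a = ![i, i'] a' := congrArg Prod.snd haa
      fin_cases a <;> fin_cases a'
      · rfl
      · exact absurd ⟨h4, h5⟩ hne
      · exact absurd ⟨h4.symm, h5.symm⟩ hne
      · rfl
    · refine large_of hm (fun a => hb₁ _ ?_ (c a)) ((h1 c u hub hinj).mono hDD)
      have h3 := h0 (u a) (hub a)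
      push_cast at h3 ⊢
      linarith
  -- sums with a bounded number of summands
  have hcard : ∀ (B s : ℕ) (c : Fin s → Fin r) (u : Fin s → ℕ), (∀ a, u a ≤ B) → Function.Injective (fun a => (u a, c a)) →
      s ≤ (B + 1) * r := by
    intro B s c u hub hinj
    have h1 : Function.Injective (fun a => ((⟨u a, Nat.lt_succ_of_le (hub a)⟩ : Fin (B + 1)), c a)) := by
      intro a a' h
      refine hinj ?_
      have h2 := congrArg Prod.fst h
      have h3 := congrArg Prod.snd h
      exact Prod.ext (congrArg Fin.val h2) h3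
    have h2 := Fintype.card_le_of_injective _ h1
    rwa [Fintype.card_prod, Fintype.card_fin, Fintype.card_fin, Fintype.card_fin] at h2
  have keyB : ∀ G : ℕ, G0 ≤ G → ∀ g A₀ D B : ℕ, ∃ E : ℕ, ∀ ξ : ℂ, ((B : ℝ) + 2) ^ E ≤ ‖ξ‖ → Height g A₀ ξ →
      ∀ s : ℕ, LargeWindow D P G B s ξ := by
    intro G hG g A₀ D B
    choose E hE using key G hG g A₀ D
    refine ⟨∑ s ∈ Finset.range ((B + 1) * r + 1), E s, fun ξ hξ hht s => ?_⟩
    have hB1 : (1 : ℝ) ≤ (B : ℝ) + 2 := by linarith [(Nat.cast_nonneg B : (0 : ℝ) ≤ B)]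
    have hle : ∀ s, s ≤ (B + 1) * r → LargeWindow D P G B s ξ := fun s hs =>
      (hE s B ξ ((pow_le_pow_right₀ hB1 (Finset.single_le_sum (f := E) (fun _ _ => Nat.zero_le _)
        (Finset.mem_range.2 (Nat.lt_succ_of_le hs)))).trans hξ) hht).2
    refine ⟨(hle 0 (Nat.zero_le _)).1, fun c u hub hinj => ?_⟩
    exact (hle s (hcard B s c u hub hinj)).2 c u hub hinj
  refine ⟨b₀ + 1, G0, by omega, fun z hz i a b => ?_, fun G hG g A₀ D => ⟨key G hG g A₀ D, fun B => ?_⟩, fun g D => ?_,
    fun D => ?_⟩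
  · by_cases hz0 : z = 0
    · subst hz0
      refine summable_of_ne_finset_zero (s := {0}) fun k hk => ?_
      rw [Finset.mem_singleton] at hk
      rw [zero_pow hk, mul_zero]
    · have h1 := hb₀ (1 / z) (by
        rw [norm_div, norm_one, lt_div_iff₀ (norm_pos_iff.2 hz0)]
        push_cast at hz
        have := norm_nonneg z
        nlinarith) i a b
      rw [one_div_one_div] at h1
      refine Summable.of_norm ?_
      refine h1.congr fun k => ?_
      rw [norm_mul, norm_pow]
  · obtain ⟨E, hE⟩ := keyB G hG g A₀ D B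
    refine (Y119.HA.finite_ht g A₀ ((B + 2) ^ E) (fun ξ => ¬ ∃ s : ℕ, ¬ LargeWindow D P G B s ξ) (fun ξ hξ hht => ?_)).subset ?_
    · push_cast at hξ
      rintro ⟨s, hsp⟩
      exact hsp (hE ξ hξ hht s)
    · rintro ξ ⟨h1, h2, h3⟩
      refine ⟨?_, h2, not_not.2 h3⟩
      have h4 := h1 0 (Nat.zero_le B)
      rw [Nat.mul_zero, Nat.cast_zero, sub_zero] at h4
      refine lt_of_le_of_lt ?_ h4
      push_cast
      have : (0 : ℝ) ≤ b₀ := Nat.cast_nonneg b₀
      linarith
  · obtain ⟨E, hE⟩ := keyB G0 le_rfl g (2 * g) D 0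
    refine (Y119.HA.finite_conj g (2 ^ E + (b₀ + 2)) (fun ξ => (((b₀ + 1 : ℕ) : ℝ) < ‖ξ‖) ∧
      ¬ ∃ s : ℕ, ¬ LargeWindow D P 0 0 s ξ)
      (fun ξ hξ hht => ⟨?_, ?_⟩)).subset ?_
    · refine lt_of_lt_of_le ?_ hξ
      push_cast
      have : (0 : ℝ) < 2 ^ E := by positivity
      linarith
    · rintro ⟨s, hsp⟩
      apply hsp
      refine (hE ξ ?_ hht s).zero 0
      rw [Nat.cast_zero, zero_add]
      push_cast at hξ
      have : (0 : ℝ) ≤ b₀ := Nat.cast_nonneg b₀
      linarith
    · rintro ξ ⟨h1, h2, h3⟩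
      refine ⟨h1, h2, fun ξ' hr h1' hP' => hP'.2 (h3 ξ' hr hP'.1)⟩
  · -- the density of the exceptional fibres
    obtain ⟨E1, hE1⟩ := keyB G0 le_rfl 1 1 D 0
    obtain ⟨E2, hE2⟩ := key G0 le_rfl 1 1 D 2
    have hht : ∀ n : ℕ, 1 ≤ n → Height 1 1 (n : ℂ) := by
      intro n hn
      refine ⟨Polynomial.X - Polynomial.C (n : ℤ), Polynomial.X_sub_C_ne_zero _, (Polynomial.natDegree_X_sub_C _).le,
        fun j => ?_, by simp⟩
      rw [Complex.norm_natCast, pow_one, Polynomial.coeff_sub, Polynomial.coeff_X, Polynomial.coeff_C]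
      have hn' : (1 : ℝ) ≤ n := by exact_mod_cast hn
      split_ifs <;> push_cast <;> simp <;> linarith
    have hpos : 1 ≤ 2 ^ E1 := Nat.one_le_two_pow
    set T0 := b₀ + 2 + 2 ^ E1 with hT0
    set E := E2 + G0 + T0 + 1 with hEdef
    set p : ℕ → Prop := fun n => ¬ ((((b₀ + 1 : ℕ) : ℝ)) < n ∧ (∀ i, ¬ IsExceptional D (P i) (1 / (n : ℂ))) ∧
      ∀ s : ℕ, LargeWindow D P 0 0 s (n : ℂ)) with hp
    have hbig : ∀ n : ℕ, T0 ≤ n → p n → ∃ i, IsExceptional D (P i) (1 / (n : ℂ)) := by
      intro n hn hpn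
      by_contra hcon
      push Not at hcon
      refine hpn ⟨?_, hcon, fun s => ?_⟩
      · have h1 : b₀ + 1 < n := by omega
        exact_mod_cast h1
      · refine (hE1 (n : ℂ) ?_ (hht n (by omega)) s).zero 0
        rw [Complex.norm_natCast, Nat.cast_zero, zero_add]
        have h1 : 2 ^ E1 ≤ n := by omega
        exact_mod_cast h1
    have hmain : ∀ B n u : ℕ, (B + 2) ^ E ≤ n → 1 ≤ u → u ≤ B → G0 * u ≤ n → p n → ¬ p (n - G0 * u) := by
      intro B n u hn hu1 hu2 hGu hpn hpu
      have h1 : G0 * u + T0 ≤ n := by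
        refine le_trans ?_ hn
        have h2 : G0 + T0 ≤ (B + 2) ^ (G0 + T0) :=
          (Nat.lt_two_pow_self (n := G0 + T0)).le.trans (Nat.pow_le_pow_left (by omega) _)
        have h3 : 1 ≤ (B + 2) ^ E2 := Nat.one_le_pow _ _ (by omega)
        calc G0 * u + T0 ≤ G0 * (B + 2) + T0 * (B + 2) :=
              Nat.add_le_add (Nat.mul_le_mul_left _ (by omega)) (Nat.le_mul_of_pos_right _ (by omega))
          _ = (G0 + T0) * (B + 2) := by ring
          _ ≤ (B + 2) ^ (G0 + T0) * (B + 2) := Nat.mul_le_mul_right _ h2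
          _ ≤ (B + 2) ^ E2 * ((B + 2) ^ (G0 + T0) * (B + 2)) := Nat.le_mul_of_pos_left _ h3
          _ = (B + 2) ^ E := by rw [hEdef]; ring
      obtain ⟨i, hi⟩ := hbig n (by omega) hpn
      obtain ⟨i', hi'⟩ := hbig (n - G0 * u) (by omega) hpu
      have hw := (hE2 B (n : ℂ) (by
        rw [Complex.norm_natCast]
        have h2 : (B + 2) ^ E2 ≤ n := (Nat.pow_le_pow_right (by omega) (by omega)).trans hn
        exact_mod_cast h2) (hht n (by omega))).2.1 i i' 0 u (Nat.zero_le B) hu2 (by
          rw [Nat.mul_zero, Nat.cast_zero, sub_zero]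
          exact hi) (by
          rw [← Nat.cast_sub hGu]
          exact hi')
      omega
    refine ⟨E + G0 + 1, by omega, fun X hX => ?_⟩
    exact W2helper4.TS.count_rpow (A := fun X => {n : ℕ | n < X ∧ p n}.ncard) (fun X => by
      have h1 : {n : ℕ | n < X} = ↑(Finset.range X) := by
        ext n
        simp
      have h2 := Set.ncard_le_ncard (s := {n : ℕ | n < X ∧ p n}) (t := {n : ℕ | n < X}) (fun n hn => hn.1)
        (Set.finite_lt_nat X)
      rwa [h1, Set.ncard_coe_finset, Finset.card_range] at h2) (by omega)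
      (fun B X hBX => W2helper4.TS.count_le hG0 hmain B X hBX) X hX

end Pool.Agent.Results.MP_f11a48_ag.CalabiYauSubtorsors
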