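import Pool.Agent.W2helper33.BD.Out

/-!
# The monodromy group acts on all subtorsors through the periods of almost all members of an arbitrary one-parameter family

Let `K` be a field of algebraic numbers and let `c` be the matrix of the period isomorphism of a de Rham-Betti object `M` (in
bases of the de Rham and Betti spaces). Grothendieck's conjecture predicts in particular that the smallest `K`-subtorsor
`Ω_M` of the space of isomorphisms which contains `c` is the torsor of motivated periods `Ω^And_M`; one knows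
`Ω_M ⊆ Ω^dRB_M ⊆ Ω^And_M`, and all three are `K`-subtorsors in the sense of `IsSubtorsor`.

**The family.** Let `Z` be a fundamental matrix, regular at `z = 0`, of a system `f Z' = Z A` over `ℚ(z)`, such that the
entries of `Z` and `Z⁻¹` are G-functions, and let `Ω` be any invertible complex matrix. For an arbitrary family of smooth
projective varieties over a curve over `ℚ`, with coordinate `z` and good fibre at `z = 0`, `Z` comes from the Gauss-Manin connection
(the G-function property is a theorem of André, and of Bombieri and Katz), `Ω` is the period matrix of the fibre at `z = 0`, and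
`Ω Z(z)` is the period matrix of the fibre at `z`. Let `𝔤` be a perfect Lie algebra of matrices such that the functional
relations between `z` and the entries of `Ω Z(z)` are stable under the exponentials of its elements (`PreservesRelations`), and
`G` the group generated by these exponentials. The left multiplications by matrices which preserve the functional relations
form the differential Galois group of the system; in the geometric case this is the Zariski closure of the monodromy group, its
connected component is semisimple (Deligne), and so `G` may be the connected component of the algebraic monodromy group.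

**The theorem.** For almost all tuples `m = (m_1, …, m_k)` of natural numbers (for all tuples in windows `[N, N + N^c]` with
differences at least `G₀`, outside of a set of at most `M` integers; and for all but `C T^(k - c)` tuples in `[2, T]^k`) the product
`G^k` acts on *every* `K`-subtorsor through the period matrix `c` of the sum of the members at `1/m_1, …, 1/m_k`, for all number
fields `K` of degree at most `D` at the same time. Here the subtorsors may be defined by relations of arbitrarily high degree
with arbitrarily large coefficients, for example by de Rham-Betti classes in arbitrary tensor spaces, and the exceptional set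
depends only on the family, on `Ω`, `k` and `D`, not on `K`, `𝔤` or the subtorsor.

In particular this holds for `Ω_M` and `Ω^dRB_M`: the group of the de Rham-Betti realisation of the sum `M` of the members
contains the `k`-th power of the connected algebraic monodromy group, and all de Rham-Betti classes in all tensor spaces of the
sum are invariant under it. This is predicted by Grothendieck's conjecture and the theorem of André on the motivated Galois
groups of the members of a family (outside of a sparse set they contain the connected monodromy group). If `det c` is transcendental (for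
example for a polarised family of weight different from `0`) and if `E = Ω^And_M` is contained in `ℂ^× G^k c`, that is if the
motivated Galois group of the sum is not larger than the scalars and the monodromy require, then `Ω_M = Ω^dRB_M = Ω^And_M`.

Proof (`Pool/Agent/W2helper33/BD`): by the criterion (`BoundedDegreeCriterion`) it suffices to show that the relations of a
certain degree `d` over `K` between the periods hold on `G^k c`. If all relations of degree `d D^D` over `ℚ` do, then so do
the relations of degree `d` over all fields of degree at most `D`: take norms to `ℚ` of a polynomial with coefficients in `K`, and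
use that the translates `exp(X) c` form an irreducible set. The relations of bounded degree over `ℚ` are specialisations of functional
relations in `k` variables for almost all tuples by `Y113.GG` (the theorem in `GeneralFamilies`), and these are stable under
`G^k`, by analytic continuation in one variable after the other.
-/

set_option autoImplicit false

open PowerSeries Filter

namespace Pool.Agent.Results.MP_f11a48_ag.MonodromyActsOnPeriodTorsors

/-- `T` is (the set of complex points of) a `K`-subtorsor of `GL_B = Iso (M_dR, M_B)`: it is closed under `x y⁻¹ z`, and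
it is defined in `GL_B` by polynomials with coefficients in `K`. -/
def IsSubtorsor (K : Subfield ℂ) {B : Type} [Fintype B] [DecidableEq B] (T : Set (Matrix B B ℂ)) : Prop :=
  (∀ x ∈ T, ∀ y ∈ T, ∀ z ∈ T, x * y⁻¹ * z ∈ T) ∧ ∃ I : Set (MvPolynomial (B × B) K), ∀ x : Matrix B B ℂ, x ∈ T ↔
    IsUnit x ∧ ∀ p ∈ I, MvPolynomial.eval (fun b => x b.1 b.2) (MvPolynomial.map (algebraMap K ℂ) p) = 0

/-- `Ω` is the smallest `K`-subtorsor which contains the period matrix `c`. -/
def IsOmega (K : Subfield ℂ) {B : Type} [Fintype B] [DecidableEq B] (c : Matrix B B ℂ) (Ω : Set (Matrix B B ℂ)) : Prop :=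
  IsSubtorsor K Ω ∧ c ∈ Ω ∧ ∀ T : Set (Matrix B B ℂ), IsSubtorsor K T → c ∈ T → Ω ⊆ T

/-- The space `𝔤` of matrices is a perfect Lie algebra: `𝔤 = [𝔤, 𝔤]`. -/
def IsPerfect {n : ℕ} (𝔤 : Submodule ℂ (Matrix (Fin n) (Fin n) ℂ)) : Prop :=
  𝔤 = Submodule.span ℂ {W | ∃ X ∈ 𝔤, ∃ Y ∈ 𝔤, W = X * Y - Y * X}

/-- The group generated by the exponentials of the elements of `𝔤`. -/
noncomputable def expGroup {n : ℕ} (𝔤 : Submodule ℂ (Matrix (Fin n) (Fin n) ℂ)) : Submonoid (Matrix (Fin n) (Fin n) ℂ) :=
  Submonoid.closure {g | ∃ X ∈ 𝔤, g = NormedSpace.exp X}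

/-- The `k`-th power of the group of `𝔤`, as a set of block diagonal matrices. -/
def power {n : ℕ} (k : ℕ) (𝔤 : Submodule ℂ (Matrix (Fin n) (Fin n) ℂ)) : Set (Matrix (Fin n × Fin k) (Fin n × Fin k) ℂ) :=
  {x | ∃ g : Fin k → Matrix (Fin n) (Fin n) ℂ, (∀ l, g l ∈ expGroup 𝔤) ∧ x = Matrix.blockDiagonal g}

/-- The arithmetic conditions in the definition of a G-function, for a power series with rational coefficients: geometric
growth of the coefficients and of their common denominators. -/
def GCond (g : ℚ⟦X⟧) : Prop := ∃ C : ℝ, (∀ m, |((coeff m g : ℚ) : ℝ)| ≤ C ^ (m + 1)) ∧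
  ∀ m, ∃ d : ℕ, 0 < d ∧ (d : ℝ) ≤ C ^ (m + 1) ∧ ∀ j ≤ m, ∃ a : ℤ, (d : ℚ) * coeff j g = a

/-- The period matrix `Ω Z(1/x)` of the fibre at `1/x`. -/
noncomputable def period {n : ℕ} (Ω : Matrix (Fin n) (Fin n) ℂ) (Z : Matrix (Fin n) (Fin n) ℚ⟦X⟧) (x : ℝ) :
    Matrix (Fin n) (Fin n) ℂ :=
  Ω * Matrix.of fun i j => ((∑' m : ℕ, ((coeff m (Z i j) : ℚ) : ℝ) * (1 / x) ^ m : ℝ) : ℂ)

/-- The value of a polynomial in a variable (`none`) and the entries of a matrix. -/
noncomputable def value {n : ℕ} (F : MvPolynomial (Option (Fin n × Fin n)) ℂ) (z : ℂ) (M : Matrix (Fin n) (Fin n) ℂ) : ℂ :=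
  MvPolynomial.eval (fun o : Option (Fin n × Fin n) => o.elim z fun p => M p.1 p.2) F

/-- The functional relations `F(z, Ω Z(z)) = 0` (for `z = 1 / x`, `x` large) are stable under the exponentials of the
elements of `𝔤`: one has `F(z, exp(X) Ω Z(z)) = 0` too. -/
def PreservesRelations {n : ℕ} (Ω : Matrix (Fin n) (Fin n) ℂ) (Z : Matrix (Fin n) (Fin n) ℚ⟦X⟧)
    (𝔤 : Submodule ℂ (Matrix (Fin n) (Fin n) ℂ)) : Prop :=
  ∀ F : MvPolynomial (Option (Fin n × Fin n)) ℂ, (∀ᶠ x : ℝ in atTop, value F (1 / (x : ℂ)) (period Ω Z x) = 0) →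
    ∀ X ∈ 𝔤, ∀ᶠ x : ℝ in atTop, value F (1 / (x : ℂ)) (NormedSpace.exp X * period Ω Z x) = 0

/-- The tuple `m` is good. For all perfect Lie algebras `𝔤` which preserve the functional relations and all number fields
`K` of degree at most `D`, with `c` the period matrix of the sum of the members of the family at `1/m_1, …, 1/m_k`: the
`k`-th power of the group of `𝔤` acts on all `K`-subtorsors `T` through `c`; and if `det c` is transcendental, then every
`K`-subtorsor `E` through `c` all whose elements are scalar multiples of elements `g c` with `g` in the `k`-th power is the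
smallest `K`-subtorsor through `c`. -/
def Good {n : ℕ} (Ω : Matrix (Fin n) (Fin n) ℂ) (Z : Matrix (Fin n) (Fin n) ℚ⟦X⟧) (D : ℕ) {k : ℕ} (m : Fin k → ℕ) : Prop :=
  ∀ 𝔤 : Submodule ℂ (Matrix (Fin n) (Fin n) ℂ), IsPerfect 𝔤 → PreservesRelations Ω Z 𝔤 →
    ∀ K : Subfield ℂ, FiniteDimensional ℚ K → Module.finrank ℚ K ≤ D →
    ∀ c : Matrix (Fin n × Fin k) (Fin n × Fin k) ℂ, (c = Matrix.blockDiagonal fun l => period Ω Z (m l)) →
      (∀ T : Set (Matrix (Fin n × Fin k) (Fin n × Fin k) ℂ), IsSubtorsor K T → c ∈ T →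
        ∀ g ∈ power k 𝔤, ∀ x ∈ T, g * x ∈ T) ∧
      (Transcendental ℚ c.det → ∀ E : Set (Matrix (Fin n × Fin k) (Fin n × Fin k) ℂ), IsSubtorsor K E → c ∈ E →
        (∀ x ∈ E, ∃ z : ℂ, ∃ g ∈ power k 𝔤, x = z • (g * c)) → IsOmega K c E)

open Classical in
/-- The theorem. The number `G₀` depends only on the family, `M`, `c`, `C` only on the family and on `k, D`. -/
theorem result (n : ℕ) (f : Polynomial ℚ) (A : Matrix (Fin n) (Fin n) (Polynomial ℚ)) (Z W : Matrix (Fin n) (Fin n) ℚ⟦X⟧)
    (hf : f.coeff 0 ≠ 0)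
    (hode : ∀ i j, (f : ℚ⟦X⟧) * PowerSeries.derivative ℚ (Z i j) = ∑ k, Z i k * (A k j : ℚ⟦X⟧))
    (hW : W * Z = 1) (hGZ : ∀ i j, GCond (Z i j)) (hGW : ∀ i j, GCond (W i j)) :
    ∃ G₀ : ℕ, ∀ k D : ℕ,
      (∃ M : ℕ, ∃ c : ℝ, 0 < c ∧ ∀ Ω : Matrix (Fin n) (Fin n) ℂ, IsUnit Ω → ∀ N : ℕ, 1 ≤ N →
        ∃ S : Finset ℕ, S.card ≤ M ∧ ∀ m : Fin k → ℕ, (∀ i j, i ≠ j → (G₀ : ℤ) ≤ |(m i : ℤ) - m j|) →
          (∀ i, N ≤ m i ∧ (m i : ℝ) ≤ N + (N : ℝ) ^ c ∧ m i ∉ S) → Good Ω Z D m) ∧
      ∃ c : ℝ, 0 < c ∧ ∃ C : ℝ, ∀ Ω : Matrix (Fin n) (Fin n) ℂ, IsUnit Ω → ∀ T : ℕ, 1 ≤ T →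
        (((Fintype.piFinset fun _ : Fin k => Finset.Icc 2 T).filter fun m => ¬ Good Ω Z D m).card : ℝ) ≤
          C * (T : ℝ) ^ ((k : ℝ) - c) := by
  have hperf : ∀ 𝔤 : Submodule ℂ (Matrix (Fin n) (Fin n) ℂ), IsPerfect 𝔤 → W2helper33.BD.Perf 𝔤 := by
    intro 𝔤 h Z hZ
    rw [h] at hZ
    exact hZ
  have hG : ∀ g : ℚ⟦X⟧, GCond g → Y113.SDc g := by
    rintro g ⟨C, h1, h2⟩
    have hC : 1 ≤ C := by
      obtain ⟨d, hd0, hd, -⟩ := h2 0
      have : (1 : ℝ) ≤ d := by exact_mod_cast hd0
      simpa using this.trans hd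
    obtain ⟨a, ha⟩ := Y678.HG.exists_two_pow C
    refine ⟨a, fun m => (h1 m).trans (pow_le_pow_left₀ (by linarith) ha _), fun m => ?_⟩
    obtain ⟨d, hd0, hd, hd'⟩ := h2 m
    exact ⟨d, hd0, hd.trans (pow_le_pow_left₀ (by linarith) ha _), hd'⟩
  have hdat : Y113.GG.Dat f (fun i j => A i j) (fun i j => Z i j) (fun i j => W i j) := by
    refine ⟨hf, hode, fun i j => ?_, fun i j => hG _ (hGZ i j), fun i j => hG _ (hGW i j)⟩
    have h1 : (W * Z) i j = (1 : Matrix (Fin n) (Fin n) ℚ⟦X⟧) i j := by rw [hW]
    rw [Matrix.mul_apply] at h1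
    rw [h1, Matrix.one_apply]
  have hper : ∀ (Ω : Matrix (Fin n) (Fin n) ℂ) (x : ℝ), period Ω Z x = W2helper33.BD.cP Ω (fun i j => Z i j) x := by
    intro Ω x
    ext i j
    exact Matrix.mul_apply
  have hgood : ∀ (Ω : Matrix (Fin n) (Fin n) ℂ) (D k : ℕ) (m : Fin k → ℕ),
      W2helper33.BD.Concl Ω (fun i j => Z i j) D m → Good Ω Z D m := by
    intro Ω D k m h 𝔤 hp hs K hK hKD c hc
    have hs' : W2helper33.BD.IsSym Ω (fun i j => Z i j) 𝔤 := by
      intro F hF X hX
      have h1 := hs F (hF.mono fun x hx => by rw [hper]; exact hx) X hX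
      exact h1.mono fun x hx => by rw [hper] at hx; exact hx
    have h1 := h 𝔤 (hperf 𝔤 hp) hs' K hK hKD
    have hc' : c = Matrix.blockDiagonal fun l => W2helper33.BD.cP Ω (fun i j => Z i j) (m l) :=
      hc.trans (congrArg Matrix.blockDiagonal (funext fun l => hper Ω (m l)))
    rw [← hc'] at h1
    have hp' := W2helper33.BD.bdS_perf (k := k) (hperf 𝔤 hp)
    refine ⟨?_, fun hdet E hE hcE hEz => ⟨hE, hcE, fun T hT hcT => ?_⟩⟩
    · rintro T hT hcT _ ⟨g, hg, rfl⟩ x hx
      have hT' := W2helper33.BD.subtorsor_iff.1 hT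
      exact W2helper33.BD.Gp_act hT' (h1 T hT' hcT) (W2helper33.BD.bd_mem hg) x hx
    · refine W2helper33.BD.omega_le (W2helper33.BD.alg_of_fin K) hp' hdet h1 (W2helper33.BD.subtorsor_iff.1 hE) hcE ?_
        (W2helper33.BD.subtorsor_iff.1 hT) hcT
      intro x hx
      obtain ⟨z, _, ⟨g, hg, rfl⟩, h2⟩ := hEz x hx
      exact ⟨z, _, W2helper33.BD.bd_mem hg, h2⟩
  obtain ⟨G, hmain⟩ := W2helper33.BD.fam hdat
  refine ⟨G, fun k D => ?_⟩
  obtain ⟨⟨M, c, hc, hwin⟩, c', hc', C, hcount⟩ := hmain k D
  refine ⟨⟨M, c, hc, fun Ω hΩ N hN => ?_⟩, c', hc', C, fun Ω hΩ T hT => ?_⟩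
  · obtain ⟨S, hS, hS'⟩ := hwin Ω hΩ N hN
    exact ⟨S, hS, fun m hm hmS => hgood Ω D k m (hS' m hm hmS)⟩
  · refine le_trans ?_ (hcount Ω hΩ T hT)
    have h2 : ((Fintype.piFinset fun _ : Fin k => Finset.Icc 2 T).filter fun m => ¬ Good Ω Z D m) ⊆
        (Fintype.piFinset fun _ : Fin k => Finset.Icc 2 T).filter fun m =>
          ¬ W2helper33.BD.Concl Ω (fun i j => Z i j) D m := by
      intro m hm
      rw [Finset.mem_filter] at hm ⊢
      exact ⟨hm.1, fun h => hm.2 (hgood Ω D k m h)⟩
    exact_mod_cast Finset.card_le_card h2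

end Pool.Agent.Results.MP_f11a48_ag.MonodromyActsOnPeriodTorsors
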