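import Pool.Agent.W2helper73.EX.Sub

/-!
# The period conjecture for motives of CM type: the exact reach of the theorems of Bost and Deligne

Let `A i = (E i, Φ i)` be finitely many CM types, and let `M` be the sum of the motives `h^1 (A i)` of
the corresponding abelian varieties over the field of algebraic numbers. All tensor spaces of `M`
are, up to Tate twists and duals (which are given by polarizations), contained in the cohomology of
the products `X` of copies of the `A i`. By the theorem of Deligne and André Hodge classes on `X` are
motivated, so `Ω^dRB_M = Ω^And_M` says that every de Rham-Betti class in `H^{2k}(X)(k)`, for all `X`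
and `k`, is a Hodge class (`AllHodge`). For a form of `M` over a field `K` of algebraic numbers that
is linearly disjoint from the fields `E i` (for instance `K = ℚ`), the equalities
`Ω_M = Ω^dRB_M = Ω^And_M` follow if every `K`-subtorsor of `GL_N` that contains the period matrix `c`
contains `c · MT(ℂ)`, for the Mumford-Tate group `MT` (`SmallestIsMotivic`; see `SmallestSubtorsorCM`).

As in earlier work in this repository (`Pool.Agent.W537.PC`) the periods enter as a `PeriodSystem`: a
nonzero number `θ A φ` for every CM type `A = (E, Φ)` and every embedding `φ` of `E`, such that the
theorem of Bost (de Rham-Betti classes of degree two on abelian varieties of CM type are Hodge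
classes; a consequence of the theorem of Wüstholz) and the theorem of Deligne (Hodge classes on
abelian varieties are de Rham-Betti classes) hold. Both are theorems for the true periods.

Let `G` be the Galois group of a CM field `L` which is Galois over `ℚ`, and let `c ∈ G` be the complex
conjugation. The odd part `{a ∈ ℚ[G] | c a = -a} ≅ ℚ[G] / (c + 1)` of the rational group algebra is
*reduced* (`OddReduced G c`) if it contains no nonzero element with square zero, that is, if it is a
product of division algebras. `ReducedField E`: the CM field `E` is Galois over `ℚ`, with reduced odd
group algebra.

1. If all `E i` are reduced then all de Rham-Betti classes on all products of the abelian varieties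
   are Hodge classes, and the smallest subtorsors are motivic. This holds for all CM types on all
   reduced CM fields simultaneously.
2. This is the exact range of the method. For a Galois CM field `L` the following are equivalent.
   * For all period systems with the theorems of Bost and Deligne, de Rham-Betti classes are Hodge
     classes on all products of abelian varieties with complex multiplication by `L`.
   * The same for the period systems which moreover satisfy linear independence of `1` and the
     periods (the theorem of Wüstholz), and transcendence of the periods, over any prescribed
     countable field `F` of complex numbers (`IndependentOver F`; for instance `F` contains all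
     algebraic numbers, `π`, and the logarithms of algebraic numbers).
   * The odd group algebra of `L` is reduced.
   So if it is not reduced then no proof of the period conjecture for these motives can use only these
   properties of the periods. More generally, let `A` be any finite family of CM types whose fields
   are embedded into a Galois CM field `L`; the type functions of the family are the functions on `G`
   with the values `1` and `-1` given by the types. Then the theorems of Bost and Deligne imply that
   all de Rham-Betti classes are Hodge classes, if and only if every nonzero element `B` of the group
   generated by the type functions is *small*: some nonzero odd function with values in `{0, 1, -1}`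
   is a rational linear combination of translates of `B` (`SmallTypes`). In this case the smallest
   subtorsors are motivic as well.
3. If `L` is a reduced Galois CM field then all CM subfields of `L` are Galois over `ℚ` and reduced. So
   for a Galois CM field `L` that contains a CM field which is not Galois over `ℚ` there is an exotic
   period system.
4. `L` is reduced if it is abelian over `ℚ`, if its Galois group is dicyclic (generalized quaternion,
   of order `4 n` for any `n`), or more generally if for all `g`, `x` in the Galois group `x⁻¹ g x` is
   `g` or `g⁻¹`, or `g ^ 2 = c`.
-/

namespace Pool.Agent.Results.MP_f11a48_ag.ReducedGroupAlgebras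

open NumberField Pool.Agent.W547.KB Pool.Agent.W537.PC Pool.Agent.W527.Per
  Pool.Agent.W2helper73.EX

/-- De Rham-Betti classes, Hodge classes and smallest subtorsors for abelian varieties of CM type:
the exact range of the theorems of Bost and Deligne. -/
theorem result :
    -- 1. Positive theorem for all types on all reduced fields
    (∀ (ι : Type) [Fintype ι] (A : ι → CMPair), (∀ i, ReducedField (A i).E) → Motivic A) ∧
    -- 2. The exact range
    (∀ F : Subfield ℂ, Countable F →
      ∀ (L : Type) [Field L] [NumberField L] [IsCMField L] [IsGalois ℚ L],
        (HodgeOver F (allTypes L) ↔ OddReduced (L ≃ₐ[ℚ] L) (cc L)) ∧
        ∀ (j : L →+* ℂ) (ι : Type) [Fintype ι] (A : ι → CMPair), FieldsIn j A →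
          (SmallTypes j A → Motivic A) ∧ (HodgeOver F A → SmallTypes j A)) ∧
    -- 3. Subfields, and exotic period systems
    (∀ (L : Type) [Field L] [NumberField L] [IsCMField L] [IsGalois ℚ L]
      (E : Type) [Field E] [NumberField E] [IsCMField E], Nonempty (E →+* L) →
        (OddReduced (L ≃ₐ[ℚ] L) (cc L) → ReducedField E) ∧
        (¬ IsGalois ℚ E → ∀ F : Subfield ℂ, Countable F → ¬ HodgeOver F (allTypes L))) ∧
    -- 4. Examples
    (∀ (E : Type) [Field E] [NumberField E] [IsCMField E] [IsGalois ℚ E],
      Tame (E ≃ₐ[ℚ] E) (cc E) → ReducedField E) := by
  refine ⟨fun ι _ A hA P hB hD => ⟨allHodge_of_reduced P hB hD A hA,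
    smallestIsMotivic_of_reduced A hB hD hA⟩, ?_, ?_, fun E _ _ _ _ h => reducedField_of_tame E h⟩
  · intro F hF L _ _ _ _
    refine ⟨⟨fun h => reduced_of_all F hF h, fun h P hB hD _ =>
      allHodge_of_reduced P hB hD (allTypes L) fun _ => ⟨‹IsGalois ℚ L›, h⟩⟩, ?_⟩
    intro j ι _ A hj
    exact ⟨fun hS P hB hD => ⟨(criterion j A hj F hF).1 hS P hB hD,
      smallestIsMotivic_of_small A j hB hD hj hS⟩, (criterion j A hj F hF).2⟩
  · intro L _ _ _ _ E _ _ _ hE
    obtain ⟨φ⟩ := hE
    exact ⟨fun h => reducedField_of_embedding h φ, fun hG F hF hcon =>
      hG (reducedField_of_embedding (reduced_of_all (L := L) F hF hcon) φ).1⟩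

end Pool.Agent.Results.MP_f11a48_ag.ReducedGroupAlgebras
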